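import Pool.Agent.H748R2.DC.Spec

namespace Pool.Agent.H748R2.DC

open MeasureTheory Set
open scoped ENNReal

/-- the shift `p + W z` -/
noncomputable def h28q {n : ℕ} (W : ℝ) (a : E n × (Fin n → ℤ)) : E n :=
  WithLp.toLp 2 (fun i => a.1 i + W * (a.2 i : ℝ))

theorem h28q_apply {n : ℕ} (W : ℝ) (a : E n × (Fin n → ℤ)) (i : Fin n) :
    h28q W a i = a.1 i + W * (a.2 i : ℝ) := rfl

/-- the half open cube -/
def h28C (n : ℕ) (W : ℝ) : Set (E n) := {t | ∀ i, 0 ≤ t i ∧ t i < W}

theorem h28C_eq (n : ℕ) (W : ℝ) : h28C n W =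
    (MeasurableEquiv.toLp 2 (Fin n → ℝ)).symm ⁻¹' (Set.pi Set.univ fun _ => Ico (0 : ℝ) W) := by
  ext t
  constructor
  · intro h i _
    exact h i
  · intro h i
    exact h i (Set.mem_univ i)

theorem h28C_meas (n : ℕ) (W : ℝ) : MeasurableSet (h28C n W) := by
  rw [h28C_eq]
  exact (MeasurableEquiv.toLp 2 (Fin n → ℝ)).symm.measurable
    (MeasurableSet.univ_pi fun _ => measurableSet_Ico)

theorem h28C_vol (n : ℕ) (W : ℝ) : volume (h28C n W) = ENNReal.ofReal W ^ n := by
  rw [h28C_eq, (EuclideanSpace.volume_preserving_symm_measurableEquiv_toLp (Fin n)).measure_preimage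
    (MeasurableSet.univ_pi fun _ => measurableSet_Ico).nullMeasurableSet, Real.volume_pi_Ico]
  simp

theorem h28_inj {n : ℕ} {R W : ℝ} (hR : R < W) {P : Finset (E n)} (hP : ∀ p ∈ P, p ∈ box n R)
    (a b : E n × (Fin n → ℤ)) (ha : a.1 ∈ P) (hb : b.1 ∈ P) (h : h28q W a = h28q W b) : a = b := by
  have key : ∀ i, a.2 i = b.2 i ∧ a.1 i = b.1 i := by
    intro i
    have hi : a.1 i + W * (a.2 i : ℝ) = b.1 i + W * (b.2 i : ℝ) := by
      rw [← h28q_apply, ← h28q_apply, h]
    have h1 := hP _ ha i
    have h2 := hP _ hb i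
    have hW : 0 < W := by linarith [h1.1, h1.2]
    have hz : a.2 i = b.2 i := by
      by_contra hne
      rcases lt_or_gt_of_ne hne with hlt | hlt
      · have h3 : (a.2 i : ℝ) + 1 ≤ (b.2 i : ℝ) := by exact_mod_cast hlt
        nlinarith [mul_le_mul_of_nonneg_left h3 hW.le]
      · have h3 : (b.2 i : ℝ) + 1 ≤ (a.2 i : ℝ) := by exact_mod_cast hlt
        nlinarith [mul_le_mul_of_nonneg_left h3 hW.le]
    refine ⟨hz, ?_⟩
    rw [hz] at hi
    linarith
  apply Prod.ext
  · ext i
    exact (key i).2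
  · funext i
    exact (key i).1

theorem t_AVG : S_AVG := by
  classical
  intro n _ R W hR0 hRW P hP F hF
  have hW : 0 < W := lt_of_le_of_lt hR0 hRW
  -- bound for `F`
  obtain ⟨B, hB⟩ := hF.isBounded.exists_norm_le
  obtain ⟨M, hM⟩ := exists_nat_ge ((|B| + R) / W + 1)
  set Zs : Finset (Fin n → ℤ) := Fintype.piFinset (fun _ => Finset.Icc (-(M : ℤ)) (M : ℤ)) with hZs
  set S : Finset (E n × (Fin n → ℤ)) := P ×ˢ Zs with hS
  have hFm : MeasurableSet F := hF.measurableSet
  -- covering
  have hcov : ∀ p ∈ P, ∀ x ∈ F, ∃ z ∈ Zs, x - h28q W (p, z) ∈ h28C n W := by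
    intro p hp x hx
    refine ⟨fun i => ⌊(x i - p i) / W⌋, ?_, ?_⟩
    · rw [hZs, Fintype.mem_piFinset]
      intro i
      rw [Finset.mem_Icc]
      have hxi : |x i| ≤ |B| := by
        have h1 : ‖x i‖ ≤ ‖x‖ := PiLp.norm_apply_le x i
        rw [Real.norm_eq_abs] at h1
        exact h1.trans ((hB x hx).trans (le_abs_self B))
      have hpi := hP p hp i
      have h2 := abs_le.1 hxi
      have h3 : (x i - p i) / W ≤ (|B| + R) / W := by
        apply div_le_div_of_nonneg_right _ hW.le
        linarith [h2.2, hpi.1]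
      have h4 : -((|B| + R) / W) ≤ (x i - p i) / W := by
        rw [← neg_div]
        apply div_le_div_of_nonneg_right _ hW.le
        linarith [h2.1, hpi.2]
      constructor
      · apply Int.le_floor.2
        push_cast
        linarith
      · have h5 := Int.floor_le ((x i - p i) / W)
        have h6 : ((⌊(x i - p i) / W⌋ : ℤ) : ℝ) ≤ ((M : ℤ) : ℝ) := by
          push_cast
          linarith
        exact_mod_cast h6
    · intro i
      have e : (x - h28q W (p, fun i => ⌊(x i - p i) / W⌋)) i =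
          x i - (p i + W * (⌊(x i - p i) / W⌋ : ℝ)) := rfl
      rw [e]
      have h5 := Int.floor_le ((x i - p i) / W)
      have h6 := Int.lt_floor_add_one ((x i - p i) / W)
      rw [le_div_iff₀ hW] at h5
      rw [div_lt_iff₀ hW] at h6
      constructor
      · linarith
      · linarith
  -- the counting function
  set Nf : E n → ℕ := fun t => (S.filter (fun a => t + h28q W a ∈ F)).card with hNf
  have hNle : ∀ t, Nf t ≤ S.card := fun t => Finset.card_filter_le _ _
  -- a maximal value on the cube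
  have hne : (0 : E n) ∈ h28C n W := fun i => ⟨le_refl _, hW⟩
  obtain ⟨t0, ht0, hmax⟩ : ∃ t0 ∈ h28C n W, ∀ t ∈ h28C n W, Nf t ≤ Nf t0 := by
    have hfin : (Nf '' h28C n W).Finite := by
      apply (Set.finite_Iic S.card).subset
      rintro _ ⟨t, _, rfl⟩
      exact hNle t
    obtain ⟨m, hm, hm'⟩ := hfin.exists_maximal ⟨_, ⟨0, hne, rfl⟩⟩
    obtain ⟨t0, ht0, rfl⟩ := hm
    refine ⟨t0, ht0, fun t ht => ?_⟩
    by_contra hlt
    have := hm' ⟨t, ht, rfl⟩ (le_of_not_ge hlt)
    exact hlt this
  refine ⟨t0, (S.filter (fun a => t0 + h28q W a ∈ F)).image (fun a => t0 + h28q W a), ?_, ?_⟩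
  · intro g hg
    rw [Finset.mem_image] at hg
    obtain ⟨a, ha, rfl⟩ := hg
    rw [Finset.mem_filter, hS, Finset.mem_product] at ha
    refine ⟨ha.2, a.1, ha.1.1, a.2, fun i => ?_⟩
    show t0 i + (a.1 i + W * (a.2 i : ℝ)) = _
    ring
  · have hcard : ((S.filter (fun a => t0 + h28q W a ∈ F)).image (fun a => t0 + h28q W a)).card =
        Nf t0 := by
      apply Finset.card_image_of_injOn
      intro a ha b hb hab
      have ha' := (Finset.mem_product.1 (Finset.mem_filter.1 ha).1).1
      have hb' := (Finset.mem_product.1 (Finset.mem_filter.1 hb).1).1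
      exact h28_inj hRW hP a b ha' hb' (add_left_cancel hab)
    rw [hcard]
    -- integrals
    have hI : ∀ t, (Nf t : ℝ≥0∞) = ∑ a ∈ S, ({t | t + h28q W a ∈ F} : Set (E n)).indicator 1 t := by
      intro t
      rw [hNf]
      simp only
      rw [Finset.card_filter]
      push_cast
      refine Finset.sum_congr rfl (fun a _ => ?_)
      by_cases h : t + h28q W a ∈ F
      · rw [if_pos h, Set.indicator_of_mem (by exact h)]; rfl
      · rw [if_neg h, Set.indicator_of_notMem (by exact h)]
    have hms : ∀ a, MeasurableSet ({t | t + h28q W a ∈ F} : Set (E n)) := fun a =>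
      (measurable_add_const (h28q W a)) hFm
    have hup : ∫⁻ t in h28C n W, (Nf t : ℝ≥0∞) ≤ (Nf t0 : ℝ≥0∞) * ENNReal.ofReal W ^ n := by
      calc ∫⁻ t in h28C n W, (Nf t : ℝ≥0∞) ≤ ∫⁻ _ in h28C n W, (Nf t0 : ℝ≥0∞) := by
            apply setLIntegral_mono' (h28C_meas n W)
            intro t ht
            exact_mod_cast hmax t ht
        _ = (Nf t0 : ℝ≥0∞) * ENNReal.ofReal W ^ n := by
            rw [setLIntegral_const, h28C_vol]
    have hlow : (P.card : ℝ≥0∞) * volume F ≤ ∫⁻ t in h28C n W, (Nf t : ℝ≥0∞) := by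
      have e1 : ∫⁻ t in h28C n W, (Nf t : ℝ≥0∞) =
          ∑ a ∈ S, volume ({t | t + h28q W a ∈ F} ∩ h28C n W) := by
        simp only [hI]
        rw [lintegral_finsetSum]
        · refine Finset.sum_congr rfl (fun a _ => ?_)
          rw [lintegral_indicator_one (hms a), Measure.restrict_apply (hms a)]
        · intro a _
          exact measurable_one.indicator (hms a)
      rw [e1, hS, Finset.sum_product, ← nsmul_eq_mul, ← Finset.sum_const]
      apply Finset.sum_le_sum
      intro p hp
      have e2 : ∀ z, volume ({t | t + h28q W (p, z) ∈ F} ∩ h28C n W) =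
          volume (F ∩ {x | x - h28q W (p, z) ∈ h28C n W}) := by
        intro z
        have e3 : ({t | t + h28q W (p, z) ∈ F} ∩ h28C n W : Set (E n)) =
            (fun t => t + h28q W (p, z)) ⁻¹' (F ∩ {x | x - h28q W (p, z) ∈ h28C n W}) := by
          ext t
          constructor
          · rintro ⟨h1, h2⟩
            refine ⟨h1, ?_⟩
            show t + h28q W (p, z) - h28q W (p, z) ∈ h28C n W
            rw [add_sub_cancel_right]
            exact h2
          · rintro ⟨h1, h2⟩
            refine ⟨h1, ?_⟩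
            have h3 : t + h28q W (p, z) - h28q W (p, z) ∈ h28C n W := h2
            rw [add_sub_cancel_right] at h3
            exact h3
        rw [e3, measure_preimage_add_right]
      calc volume F ≤ volume (⋃ z ∈ Zs, F ∩ {x | x - h28q W (p, z) ∈ h28C n W}) := by
            apply measure_mono
            intro x hx
            obtain ⟨z, hz, hz'⟩ := hcov p hp x hx
            exact Set.mem_biUnion hz ⟨hx, hz'⟩
        _ ≤ ∑ z ∈ Zs, volume (F ∩ {x | x - h28q W (p, z) ∈ h28C n W}) :=
            measure_biUnion_finset_le _ _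
        _ = _ := Finset.sum_congr rfl (fun z _ => (e2 z).symm)
    have hfin := hlow.trans hup
    have hfin2 := ENNReal.toReal_mono (ENNReal.mul_ne_top (ENNReal.natCast_ne_top _)
      (ENNReal.pow_ne_top ENNReal.ofReal_ne_top)) hfin
    rw [ENNReal.toReal_mul, ENNReal.toReal_mul, ENNReal.toReal_natCast, ENNReal.toReal_natCast,
      ENNReal.toReal_pow, ENNReal.toReal_ofReal hW.le] at hfin2
    exact hfin2

end Pool.Agent.H748R2.DC
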