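import Pool.Agent.H748R2.DC.Spec

/-! T7: the bound of Blichfeldt for balls. -/

namespace Pool.Agent.H748R2.DC

open MeasureTheory Set Filter Topology
open scoped ENNReal

/-- the integrand -/
noncomputable def h854_g {n : ℕ} (y : E n) : ℝ := max 0 (2 - ‖y‖ ^ 2)

/-- the enlarged cube -/
def h854_Z (n : ℕ) (R : ℝ) : Set (E n) :=
  (WithLp.ofLp : E n → (Fin n → ℝ)) ⁻¹' Icc (fun _ => (-2 : ℝ)) (fun _ => R + 2)

theorem h854_volZ (n : ℕ) {R : ℝ} (hR : 0 ≤ R) :
    (volume (h854_Z n R)).toReal = (R + 4) ^ n ∧ volume (h854_Z n R) ≠ ⊤ := by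
  have h1 : volume (h854_Z n R) =
      volume (Icc (fun _ : Fin n => (-2 : ℝ)) (fun _ : Fin n => R + 2)) := by
    unfold h854_Z
    exact (PiLp.volume_preserving_ofLp (Fin n)).measure_preimage
      measurableSet_Icc.nullMeasurableSet
  have hle : (fun _ : Fin n => (-2 : ℝ)) ≤ (fun _ : Fin n => R + 2) := by
    intro i
    show (-2 : ℝ) ≤ R + 2
    linarith
  constructor
  · rw [h1, Real.volume_Icc_pi_toReal hle]
    simp only [Finset.prod_const, Finset.card_univ, Fintype.card_fin]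
    congr 1
    ring
  · rw [h1, Real.volume_Icc_pi]
    exact ENNReal.prod_ne_top (fun i _ => ENNReal.ofReal_ne_top)

theorem h854_out {n : ℕ} {R : ℝ} {p x : E n} (hp : p ∈ box n R) (hx : x ∉ h854_Z n R) :
    h854_g (x - p) = 0 := by
  have hx2 : ∃ i, x i < -2 ∨ R + 2 < x i := by
    by_contra hcon
    push Not at hcon
    apply hx
    show WithLp.ofLp x ∈ Icc (fun _ => (-2 : ℝ)) (fun _ => R + 2)
    exact ⟨fun i => (hcon i).1, fun i => (hcon i).2⟩
  obtain ⟨i, hi⟩ := hx2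
  have hpi := hp i
  have h1 : 2 < |(x - p) i| := by
    have : (x - p) i = x i - p i := rfl
    rw [this, lt_abs]
    rcases hi with hi | hi
    · right; linarith
    · left; linarith
  have h2 : |(x - p) i| ≤ ‖x - p‖ := by
    have := PiLp.norm_apply_le (x - p) i
    rwa [Real.norm_eq_abs] at this
  unfold h854_g
  apply max_eq_left
  nlinarith

theorem h854_mid {n : ℕ} {P : Finset (E n)}
    (hP : (P : Set (E n)).PairwiseDisjoint (fun p => copy (Metric.ball (0 : E n) 1) p 1)) :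
    ∀ p ∈ P, ∀ q ∈ P, p ≠ q → 2 ≤ dist p q := by
  intro p hp q hq hne
  by_contra hcon
  rw [not_le, dist_eq_norm] at hcon
  have hdis : Disjoint (copy (Metric.ball (0 : E n) 1) p 1) (copy (Metric.ball (0 : E n) 1) q 1) :=
    hP (Finset.mem_coe.2 hp) (Finset.mem_coe.2 hq) hne
  have hhalf : ‖(1 / 2 : ℝ) • (p - q)‖ < 1 := by
    rw [norm_smul, Real.norm_of_nonneg (by norm_num)]
    linarith
  have hm1 : q + (1 : ℝ) • ((1 / 2 : ℝ) • (p - q)) ∈ copy (Metric.ball (0 : E n) 1) p 1 := by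
    refine ⟨-((1 / 2 : ℝ) • (p - q)), ?_, ?_⟩
    · rw [mem_ball_zero_iff, norm_neg]
      exact hhalf
    · rw [one_smul, one_smul]
      module
  have hm2 : q + (1 : ℝ) • ((1 / 2 : ℝ) • (p - q)) ∈ copy (Metric.ball (0 : E n) 1) q 1 := by
    refine ⟨(1 / 2 : ℝ) • (p - q), ?_, rfl⟩
    rw [mem_ball_zero_iff]
    exact hhalf
  exact Set.disjoint_left.1 hdis hm1 hm2

theorem h854_count (h1 : S_BLICH) (h2 : S_INTB) {n : ℕ} (hn : 1 ≤ n) {R : ℝ} (hR : 0 ≤ R)
    (P : Finset (E n)) (hbox : ∀ p ∈ P, p ∈ box n R)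
    (hP : (P : Set (E n)).PairwiseDisjoint (fun p => copy (Metric.ball (0 : E n) 1) p 1)) :
    (P.card : ℝ) * ((volume (Metric.ball (0 : E n) 1)).toReal *
      ((2 : ℝ) ^ ((n : ℝ) / 2) * (4 / ((n : ℝ) + 2)))) ≤ 2 * (R + 4) ^ n := by
  obtain ⟨hint, hval⟩ := h2 n hn
  have hbl := h1 n P (h854_mid hP)
  obtain ⟨hZ, hZf⟩ := h854_volZ n hR
  have hZm : MeasurableSet (h854_Z n R) :=
    (PiLp.volume_preserving_ofLp (Fin n)).measurable measurableSet_Icc
  have hi : ∀ p ∈ P, Integrable (fun x : E n => h854_g (x - p)) := by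
    intro p _
    exact hint.comp_sub_right p
  have e1 : ∫ x in h854_Z n R, ∑ p ∈ P, h854_g (x - p) =
      (P.card : ℝ) * ∫ y : E n, max 0 (2 - ‖y‖ ^ 2) := by
    rw [integral_finsetSum P (fun p hp => (hi p hp).integrableOn)]
    rw [Finset.sum_congr rfl (fun p hp => ?_), Finset.sum_const, nsmul_eq_mul]
    rw [setIntegral_eq_integral_of_forall_compl_eq_zero
      (fun x hx => h854_out (hbox p hp) hx)]
    exact integral_sub_right_eq_self (fun y : E n => h854_g y) p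
  have e2 : ∫ x in h854_Z n R, ∑ p ∈ P, h854_g (x - p) ≤ ∫ _x in h854_Z n R, (2 : ℝ) := by
    refine setIntegral_mono ?_ ?_ ?_
    · exact (integrable_finsetSum P hi).integrableOn
    · exact integrableOn_const hZf
    · intro x
      exact hbl x
  rw [e1, hval] at e2
  refine e2.trans (le_of_eq ?_)
  rw [setIntegral_const, measureReal_def, hZ, smul_eq_mul]
  ring

theorem h854_limit (n : ℕ) {C d : ℝ}
    (h : ∀ R0 : ℝ, ∃ R : ℝ, R0 ≤ R ∧ 0 < R ∧ d * R ^ n ≤ C * (R + 4) ^ n) : d ≤ C := by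
  by_contra hcon
  rw [not_le] at hcon
  have hlim : Tendsto (fun R : ℝ => C * (1 + 4 / R) ^ n) atTop (𝓝 (C * (1 + 0) ^ n)) := by
    have h0 : Tendsto (fun R : ℝ => 4 / R) atTop (𝓝 0) :=
      tendsto_const_nhds.div_atTop tendsto_id
    exact ((h0.const_add 1).pow n).const_mul C
  rw [add_zero, one_pow, mul_one] at hlim
  obtain ⟨R1, hR1⟩ := (hlim.eventually (gt_mem_nhds hcon)).exists_forall_of_atTop
  obtain ⟨R, hR, hpos, hle⟩ := h R1
  have h2 := hR1 R hR
  have h3 : C * (R + 4) ^ n = (C * (1 + 4 / R) ^ n) * R ^ n := by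
    rw [mul_assoc, ← mul_pow]
    congr 2
    field_simp
  rw [h3] at hle
  have hRn : 0 < R ^ n := pow_pos hpos n
  have h4 := le_of_mul_le_mul_right hle hRn
  linarith

theorem t_BALL (h1 : S_BLICH) (h2 : S_INTB) : S_BALL := by
  intro n hn
  constructor
  · refine ⟨Metric.isOpen_ball, Metric.isBounded_ball, convex_ball _ _, ?_, ?_⟩
    · intro x hx
      rw [mem_ball_zero_iff] at hx ⊢
      rwa [norm_neg]
    · exact ⟨0, Metric.mem_ball_self one_pos⟩
  · intro d hd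
    apply h854_limit n
    intro R0
    obtain ⟨R, hR, P, hbox, hP, hle⟩ := hd (max R0 1)
    have hR0 : R0 ≤ R := (le_max_left _ _).trans hR
    have hR1 : 1 ≤ R := (le_max_right _ _).trans hR
    refine ⟨R, hR0, by linarith, hle.trans ?_⟩
    have hc := h854_count h1 h2 hn (by linarith) P hbox hP
    have ha : (2 : ℝ) ^ (-(n : ℝ) / 2) = ((2 : ℝ) ^ ((n : ℝ) / 2))⁻¹ := by
      rw [← Real.rpow_neg (by norm_num)]
      congr 1
      ring
    rw [ha]
    have hapos : 0 < (2 : ℝ) ^ ((n : ℝ) / 2) := Real.rpow_pos_of_pos (by norm_num) _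
    have hnpos : (0 : ℝ) < (n : ℝ) + 2 := by positivity
    have e1 : (P.card : ℝ) * (volume (Metric.ball (0 : E n) 1)).toReal =
        ((P.card : ℝ) * ((volume (Metric.ball (0 : E n) 1)).toReal *
      ((2 : ℝ) ^ ((n : ℝ) / 2) * (4 / ((n : ℝ) + 2))))) *
        (((n : ℝ) + 2) / 4 * ((2 : ℝ) ^ ((n : ℝ) / 2))⁻¹) := by
      field_simp
    rw [e1]
    have e2 : ((n : ℝ) + 2) / 2 * ((2 : ℝ) ^ ((n : ℝ) / 2))⁻¹ * (R + 4) ^ n =
        (2 * (R + 4) ^ n) * (((n : ℝ) + 2) / 4 * ((2 : ℝ) ^ ((n : ℝ) / 2))⁻¹) := by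
      ring
    rw [e2]
    exact mul_le_mul_of_nonneg_right hc (by positivity)

end Pool.Agent.H748R2.DC
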