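import Pool.Agent.H748R2.DC.Spec

namespace Pool.Agent.H748R2.DC

open MeasureTheory Set
open scoped ENNReal

theorem h45_copy_eq {n : ℕ} (K : Set (E n)) (x : E n) {t : ℝ} (ht : 0 < t) :
    copy K x t = (fun y => y - x) ⁻¹' ((fun z => t⁻¹ • z) ⁻¹' K) := by
  ext y
  constructor
  · rintro ⟨k, hk, rfl⟩
    show t⁻¹ • (x + t • k - x) ∈ K
    rw [add_sub_cancel_left, smul_smul, inv_mul_cancel₀ ht.ne', one_smul]
    exact hk
  · intro h
    refine ⟨t⁻¹ • (y - x), h, ?_⟩
    rw [smul_smul, mul_inv_cancel₀ ht.ne', one_smul]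
    abel

theorem h45_zero {n : ℕ} {K : Set (E n)} (hK : IsBody K) : (0 : E n) ∈ K := by
  obtain ⟨k, hk⟩ := hK.nonempty
  have h := hK.conv hk (hK.symm k hk) (a := 1 / 2) (b := 1 / 2) (by norm_num) (by norm_num)
    (by norm_num)
  rwa [smul_neg, add_neg_cancel] at h

theorem h45_comb {n : ℕ} {K : Set (E n)} (hK : IsBody K) {s t : ℝ} (hs : 0 < s) (ht : 0 < t)
    {k k' : E n} (hk : k ∈ K) (hk' : k' ∈ K) : ∃ k'' ∈ K, s • k + t • k' = (s + t) • k'' := by
  have hst : 0 < s + t := by linarith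
  refine ⟨(s / (s + t)) • k + (t / (s + t)) • k', ?_, ?_⟩
  · exact hK.conv hk hk' (by positivity) (by positivity) (by field_simp)
  · rw [smul_add, smul_smul, smul_smul, mul_div_cancel₀ _ hst.ne', mul_div_cancel₀ _ hst.ne']

theorem t_BASIC : S_BASIC := by
  intro n K hK
  have h0 := h45_zero hK
  have hpos : 0 < volume K := hK.isOpen.measure_pos volume hK.nonempty
  have hfin : volume K ≠ ⊤ := hK.bdd.measure_lt_top.ne
  refine ⟨h0, ENNReal.toReal_pos hpos.ne' hfin, hfin, ?_, ?_, ?_, ?_, ?_, ?_, ?_, ?_⟩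
  · intro x t ht
    rw [h45_copy_eq K x ht]
    exact (hK.isOpen.preimage (continuous_const_smul t⁻¹)).preimage (continuous_id.sub continuous_const)
  · intro x t ht
    obtain ⟨r, hr⟩ := hK.bdd.subset_closedBall 0
    apply (Metric.isBounded_closedBall (x := x) (r := t * r)).subset
    rintro y ⟨k, hk, rfl⟩
    have h1 := hr hk
    rw [mem_closedBall_zero_iff] at h1
    rw [mem_closedBall_iff_norm, add_sub_cancel_left, norm_smul, Real.norm_of_nonneg ht.le]
    exact mul_le_mul_of_nonneg_left h1 ht.le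
  · intro x t ht
    have e0 : (fun y : E n => y - x) = fun y => y + -x := by
      funext y
      exact sub_eq_add_neg y x
    rw [h45_copy_eq K x ht, e0, measure_preimage_add_right, Measure.addHaar_preimage_smul volume (inv_ne_zero ht.ne')]
    have e1 : |((t⁻¹ : ℝ) ^ (Module.finrank ℝ (E n)))⁻¹| = t ^ n := by
      rw [finrank_euclideanSpace_fin, inv_pow, inv_inv, abs_of_pos (by positivity)]
    rw [e1, ENNReal.ofReal_mul (by positivity), ENNReal.ofReal_toReal hfin]
  · intro x t _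
    exact ⟨0, h0, by rw [smul_zero, add_zero]⟩
  · rintro x s t hs hst y ⟨k, hk, rfl⟩
    have ht : 0 < t := by linarith
    refine ⟨(s / t) • k, hK.conv.smul_mem_of_zero_mem h0 hk ⟨by positivity, (div_le_one ht).2 hst⟩, ?_⟩
    rw [smul_smul, mul_div_cancel₀ _ ht.ne']
  · intro x y s t hs ht hy
    rw [Set.disjoint_left]
    rintro z ⟨k, hk, hz⟩ ⟨k', hk', hz'⟩
    apply hy
    obtain ⟨k'', hk'', he⟩ := h45_comb hK hs ht hk (hK.symm k' hk')
    refine ⟨k'', hk'', ?_⟩
    rw [← he, smul_neg]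
    have h1 : x + s • k = y + t • k' := by rw [← hz, ← hz']
    have h2 : y = x + s • k - t • k' := by rw [h1]; abel
    rw [h2]
    abel
  · rintro x y s t _ _ ⟨k, hk, rfl⟩ hdis
    rw [Set.disjoint_left] at hdis
    apply hdis (a := x + s • k) ⟨k, hk, rfl⟩
    refine ⟨-k, hK.symm k hk, ?_⟩
    rw [add_smul, smul_neg]
    abel
  · rintro x y s t hs ht ⟨k, hk, rfl⟩ z ⟨k', hk', rfl⟩
    obtain ⟨k'', hk'', he⟩ := h45_comb hK hs ht hk hk'
    refine ⟨k'', hk'', ?_⟩
    rw [← he]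
    abel

end Pool.Agent.H748R2.DC
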