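import Mathlib

/-!
# Disjoint dilated convex bodies over compact sets (MP_9210c2_an): definitions
-/

namespace Pool.Agent.H748R2.DC

open MeasureTheory Set
open scoped ENNReal

noncomputable section


/-- `R^n`. -/
abbrev E (n : ℕ) : Type := EuclideanSpace ℝ (Fin n)

/-- `K` is open, bounded, convex, symmetric about the origin and nonempty. -/
structure IsBody {n : ℕ} (K : Set (E n)) : Prop where
  isOpen : IsOpen K
  bdd : Bornology.IsBounded K
  conv : Convex ℝ K
  symm : ∀ x ∈ K, -x ∈ K
  nonempty : K.Nonempty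

/-- The copy `x + tK` of `K`. -/
def copy {n : ℕ} (K : Set (E n)) (x : E n) (t : ℝ) : Set (E n) := {y | ∃ k ∈ K, y = x + t • k}

/-- The property in the definition of `c(K)`: for every compact `A` and every choice of sizes
`δ x > 0`, `x ∈ A`, there are at most countably many points `x` of `A` whose copies `x + δ x K` are
pairwise disjoint and have total volume at least `c |A|`. -/
def Good {n : ℕ} (K : Set (E n)) (c : ℝ) : Prop :=
  ∀ A : Set (E n), IsCompact A → ∀ δ : E n → ℝ, (∀ x ∈ A, 0 < δ x) →
    ∃ S : Set (E n), S ⊆ A ∧ S.Countable ∧ S.PairwiseDisjoint (fun x => copy K x (δ x)) ∧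
      ENNReal.ofReal c * volume A ≤ ∑' x : S, volume (copy K (x : E n) (δ x))

/-- The constant `c(K)`. -/
def cK {n : ℕ} (K : Set (E n)) : ℝ := sSup {c | 0 ≤ c ∧ Good K c}

/-- The cube `[0,R]^n`. -/
def box (n : ℕ) (R : ℝ) : Set (E n) := {x | ∀ i, 0 ≤ x i ∧ x i ≤ R}

/-- For arbitrarily large `R` there are pairwise disjoint translates of `K`, with centres in
`[0,R]^n`, of total volume at least `d R^n`. -/
def HasPack {n : ℕ} (K : Set (E n)) (d : ℝ) : Prop :=
  ∀ R0 : ℝ, ∃ R : ℝ, R0 ≤ R ∧ ∃ P : Finset (E n), (∀ p ∈ P, p ∈ box n R) ∧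
    (P : Set (E n)).PairwiseDisjoint (fun p => copy K p 1) ∧
      d * R ^ n ≤ (P.card : ℝ) * (volume K).toReal

/-- The translative packing density of `K`, as an upper limit over large cubes. -/
def packDensity {n : ℕ} (K : Set (E n)) : ℝ := sSup {d | 0 ≤ d ∧ HasPack K d}

/-- The open unit cube `(-1,1)^n`. -/
def Q (n : ℕ) : Set (E n) := {x | ∀ i, |x i| < 1}

/-- `A` is admissible in the weak type (1,1) inequality for the centred maximal operator of `K`. -/
def Weak {n : ℕ} (K : Set (E n)) (A : ℝ) : Prop :=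
  ∀ μ : Measure (E n), IsFiniteMeasure μ →
    volume {x | ∃ r : ℝ, 0 < r ∧ volume (copy K x r) < μ (copy K x r)} ≤ ENNReal.ofReal A * μ univ

/-- The best constant in the weak type (1,1) inequality for the centred maximal operator of `K`. -/
def weakConst {n : ℕ} (K : Set (E n)) : ℝ := sInf {A | 0 ≤ A ∧ Weak K A}

end

end Pool.Agent.H748R2.DC
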