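import Mathlib
import Pool.Agent.H748R2.DC.Defs

/-!
# Disjoint dilated convex bodies over compact sets (MP_9210c2_an)

The intermediate statements (as Props `S_...`).
-/

namespace Pool.Agent.H748R2.DC

open MeasureTheory Set
open scoped ENNReal

noncomputable section

/-- Constant scale property: every compact `F` contains finitely many points whose translates of
`sK` are disjoint and have total volume at least `D |F|`. -/
def CS {n : ℕ} (K : Set (E n)) (D : ℝ) : Prop :=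
  ∀ s : ℝ, 0 < s → ∀ F : Set (E n), IsCompact F → ∃ P : Finset (E n), (P : Set (E n)) ⊆ F ∧
    (P : Set (E n)).PairwiseDisjoint (fun p => copy K p s) ∧
      D * (volume F).toReal ≤ (P.card : ℝ) * (s ^ n * (volume K).toReal)

/-- T0: basic facts on copies. -/
def S_BASIC : Prop := ∀ (n : ℕ) (K : Set (E n)), IsBody K →
  (0 : E n) ∈ K ∧ 0 < (volume K).toReal ∧ volume K ≠ ⊤ ∧
  (∀ x t, 0 < t → IsOpen (copy K x t)) ∧
  (∀ x t, 0 < t → Bornology.IsBounded (copy K x t)) ∧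
  (∀ x t, 0 < t → volume (copy K x t) = ENNReal.ofReal (t ^ n * (volume K).toReal)) ∧
  (∀ x t, 0 < t → x ∈ copy K x t) ∧
  (∀ x s t, 0 < s → s ≤ t → copy K x s ⊆ copy K x t) ∧
  -- disjointness criterion
  (∀ x y s t, 0 < s → 0 < t → y ∉ copy K x (s + t) → Disjoint (copy K x s) (copy K y t)) ∧
  (∀ x y s t, 0 < s → 0 < t → y ∈ copy K x (s + t) → ¬ Disjoint (copy K x s) (copy K y t)) ∧
  -- a small perturbation of the centre
  (∀ x y s t, 0 < s → 0 < t → y ∈ copy K x s → copy K y t ⊆ copy K x (s + t))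

/-- T1a: averaging over translates of a periodic arrangement. -/
def S_AVG : Prop := ∀ (n : ℕ), 1 ≤ n → ∀ (R W : ℝ), 0 ≤ R → R < W → ∀ (P : Finset (E n)),
  (∀ p ∈ P, p ∈ box n R) → ∀ F : Set (E n), IsCompact F →
  ∃ (t : E n) (G : Finset (E n)),
    (∀ g ∈ G, g ∈ F ∧ ∃ p ∈ P, ∃ z : Fin n → ℤ, ∀ i, g i = t i + p i + W * (z i : ℝ)) ∧
    (P.card : ℝ) * (volume F).toReal ≤ (G.card : ℝ) * W ^ n

/-- T1b: the constant scale property from the packing density. -/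
def S_CS : Prop := ∀ (n : ℕ), 1 ≤ n → ∀ (K : Set (E n)), IsBody K → ∀ d D : ℝ, HasPack K d →
  0 ≤ D → D < d → CS K D

/-- T2: greedy selection over finitely many well separated scales. -/
def S_MULTI : Prop := ∀ (n : ℕ), 1 ≤ n → ∀ (K : Set (E n)), IsBody K → ∀ D : ℝ, 0 < D → D ≤ 1 →
  CS K D → ∀ (m : ℕ) (s : ℕ → ℝ), (∀ i < m, 0 < s i) →
  (∀ i j, i < j → j < m → (n : ℝ) * s j ≤ s i) → ∀ B : ℕ → Set (E n), (∀ i < m, IsCompact (B i)) →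
  ∃ P : ℕ → Finset (E n), (∀ i < m, (P i : Set (E n)) ⊆ B i) ∧
    (∀ i < m, ∀ j < m, ∀ x ∈ P i, ∀ y ∈ P j, (i ≠ j ∨ x ≠ y) →
      Disjoint (copy K x (s i)) (copy K y (s j))) ∧
    D * (volume (⋃ i ∈ Finset.range m, B i)).toReal ≤
      (1 + Real.exp 1) * ∑ i ∈ Finset.range m, ((P i).card : ℝ) * ((s i) ^ n * (volume K).toReal)

/-- T3: from the constant scale property to the property in the definition of `c(K)`. -/
def S_GOOD : Prop := ∀ (n : ℕ), 1 ≤ n → ∀ (K : Set (E n)), IsBody K → ∀ D : ℝ, 0 < D → D ≤ 1 →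
  CS K D → Good K (D / (110 * n * (1 + Real.log n)))

/-- T4: a good constant is at most the packing density. -/
def S_UP : Prop := ∀ (n : ℕ), 1 ≤ n → ∀ (K : Set (E n)), IsBody K → ∀ c : ℝ, 0 ≤ c →
  Good K c → HasPack K c

/-- T5: densities are at most one. -/
def S_ONE : Prop := ∀ (n : ℕ), 1 ≤ n → ∀ (K : Set (E n)), IsBody K → ∀ d : ℝ, HasPack K d → d ≤ 1

/-- T6: the cube. -/
def S_CUBE : Prop := ∀ (n : ℕ), 1 ≤ n → IsBody (Q n) ∧ HasPack (Q n) 1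

/-- T7: Blichfeldt's bound for balls. -/
def S_BALL : Prop := ∀ (n : ℕ), 1 ≤ n → IsBody (Metric.ball (0 : E n) 1) ∧
  ∀ d : ℝ, HasPack (Metric.ball (0 : E n) 1) d → d ≤ ((n : ℝ) + 2) / 2 * (2 : ℝ) ^ (-(n : ℝ) / 2)

/-- T9a -/
def S_WEAK : Prop := ∀ (n : ℕ), 1 ≤ n → ∀ (K : Set (E n)), IsBody K → ∀ c : ℝ, 0 < c →
  Good K c → Weak K (1 / c)

/-- T9b -/
def S_ONEDIM : Prop := ∀ A : ℝ, 0 < A → Weak (Q 1) A → ∀ c : ℝ, 0 ≤ c → c < 1 / A → Good (Q 1) c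

/-- T3a: splitting into scale classes. -/
def S_CLASS : Prop := ∀ (n : ℕ), 1 ≤ n → ∀ A : Set (E n), IsCompact A → volume A ≠ 0 →
  ∀ δ : E n → ℝ, (∀ x ∈ A, 0 < δ x) → ∀ R0 : ℝ, 0 < R0 → (∀ x ∈ A, δ x ≤ R0) →
  ∀ L : ℕ, 1 ≤ L → ∃ j m : ℕ, j < L ∧ (volume A).toReal ≤ 2 * L * (volume (⋃ i ∈ Finset.range m,
    closure {x | x ∈ A ∧ R0 * ((1 + 1 / (n : ℝ)) ^ (j + L * i + 1))⁻¹ < δ x ∧
      δ x ≤ R0 * ((1 + 1 / (n : ℝ)) ^ (j + L * i))⁻¹})).toReal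

/-- T7a: Blichfeldt's pointwise inequality. -/
def S_BLICH : Prop := ∀ (n : ℕ) (P : Finset (E n)), (∀ p ∈ P, ∀ q ∈ P, p ≠ q → 2 ≤ dist p q) →
  ∀ x : E n, ∑ p ∈ P, max 0 (2 - ‖x - p‖ ^ 2) ≤ 2

/-- T7b: an integral. -/
def S_INTB : Prop := ∀ (n : ℕ), 1 ≤ n → Integrable (fun y : E n => max 0 (2 - ‖y‖ ^ 2)) ∧
  ∫ y : E n, max 0 (2 - ‖y‖ ^ 2) =
    (volume (Metric.ball (0 : E n) 1)).toReal * ((2 : ℝ) ^ ((n : ℝ) / 2) * (4 / ((n : ℝ) + 2)))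

/-- The property `Good` on the line, for intervals. -/
def GoodR (c : ℝ) : Prop :=
  ∀ A : Set ℝ, IsCompact A → ∀ δ : ℝ → ℝ, (∀ x ∈ A, 0 < δ x) →
    ∃ S : Set ℝ, S ⊆ A ∧ S.Countable ∧ S.PairwiseDisjoint (fun x => Ioo (x - δ x) (x + δ x)) ∧
      ENNReal.ofReal c * volume A ≤ ∑' x : S, volume (Ioo ((x : ℝ) - δ x) (x + δ x))

/-- The property `Weak` on the line, for intervals. -/
def WeakR (A : ℝ) : Prop :=
  ∀ μ : Measure ℝ, IsFiniteMeasure μ →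
    volume {x : ℝ | ∃ r : ℝ, 0 < r ∧ volume (Ioo (x - r) (x + r)) < μ (Ioo (x - r) (x + r))} ≤
      ENNReal.ofReal A * μ univ

/-- T9c -/
def S_TRANS : Prop := (∀ c, GoodR c → Good (Q 1) c) ∧ (∀ A, Weak (Q 1) A → WeakR A)

/-- T9b -/
def S_ONEDIMR : Prop := ∀ A : ℝ, 0 < A → WeakR A → ∀ c : ℝ, 0 ≤ c → c < 1 / A → GoodR c

end

end Pool.Agent.H748R2.DC
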