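import Mathlib
import Pool.Agent.H748R2.DC.Spec

namespace Pool.Agent.H748R2.DC

open MeasureTheory Set
open scoped ENNReal InnerProductSpace

theorem h732_sum {n : ℕ} (s : Finset (E n)) (v : E n → E n) :
    ∑ p ∈ s, ∑ q ∈ s, ‖v p - v q‖ ^ 2 =
      2 * (s.card : ℝ) * ∑ p ∈ s, ‖v p‖ ^ 2 - 2 * ‖∑ p ∈ s, v p‖ ^ 2 := by
  have h1 : ∀ p q : E n, ‖v p - v q‖ ^ 2 = ‖v p‖ ^ 2 - 2 * ⟪v p, v q⟫_ℝ + ‖v q‖ ^ 2 :=
    fun p q => norm_sub_sq_real _ _
  simp only [h1, Finset.sum_add_distrib, Finset.sum_sub_distrib, Finset.sum_const, nsmul_eq_mul,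
    ← Finset.mul_sum]
  rw [← real_inner_self_eq_norm_sq (∑ p ∈ s, v p), sum_inner]
  simp only [inner_sum]
  ring

theorem t_BLICH : S_BLICH := by
  intro n P hP x
  classical
  set s : Finset (E n) := P.filter (fun p => ‖x - p‖ ^ 2 < 2) with hs
  have h1 : ∑ p ∈ P, max 0 (2 - ‖x - p‖ ^ 2) = ∑ p ∈ s, (2 - ‖x - p‖ ^ 2) := by
    rw [hs, Finset.sum_filter]
    refine Finset.sum_congr rfl fun p _ => ?_
    split_ifs with h
    · exact max_eq_right (by linarith)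
    · exact max_eq_left (by linarith)
  rw [h1, Finset.sum_sub_distrib, Finset.sum_const, nsmul_eq_mul]
  rcases Nat.eq_zero_or_pos s.card with h0 | h0
  · rw [Finset.card_eq_zero.mp h0]; simp
  have hm : (0 : ℝ) < s.card := by exact_mod_cast h0
  have h2 := h732_sum s (fun p => x - p)
  have h3 : 4 * (s.card : ℝ) * (s.card - 1) ≤ ∑ p ∈ s, ∑ q ∈ s, ‖(x - p) - (x - q)‖ ^ 2 := by
    have h4 : ∀ p ∈ s, 4 * ((s.card : ℝ) - 1) ≤ ∑ q ∈ s, ‖(x - p) - (x - q)‖ ^ 2 := by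
      intro p hp
      have h5 : ∑ q ∈ s.erase p, (4 : ℝ) ≤ ∑ q ∈ s.erase p, ‖(x - p) - (x - q)‖ ^ 2 := by
        refine Finset.sum_le_sum fun q hq => ?_
        have hqs := Finset.mem_of_mem_erase hq
        have hne := Finset.ne_of_mem_erase hq
        have hd := hP q (Finset.mem_of_mem_filter q hqs) p (Finset.mem_of_mem_filter p hp) hne
        have e : (x - p) - (x - q) = q - p := by abel
        rw [e, ← dist_eq_norm]
        nlinarith
      rw [Finset.sum_const, nsmul_eq_mul, Finset.card_erase_of_mem hp, Nat.cast_sub h0] at h5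
      have h6 : ∑ q ∈ s.erase p, ‖(x - p) - (x - q)‖ ^ 2 ≤ ∑ q ∈ s, ‖(x - p) - (x - q)‖ ^ 2 :=
        Finset.sum_le_sum_of_subset_of_nonneg (Finset.erase_subset p s) fun _ _ _ => sq_nonneg _
      push_cast at h5
      linarith
    have h7 := Finset.sum_le_sum h4
    rw [Finset.sum_const, nsmul_eq_mul] at h7
    linarith
  rw [h2] at h3
  have h8 : 0 ≤ ‖∑ p ∈ s, (x - p)‖ ^ 2 := sq_nonneg _
  have h9 : 2 * (s.card : ℝ) * (2 * (s.card - 1)) ≤ 2 * (s.card : ℝ) * ∑ p ∈ s, ‖x - p‖ ^ 2 := by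
    linarith
  have h10 := le_of_mul_le_mul_left h9 (by linarith)
  linarith

end Pool.Agent.H748R2.DC
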