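import Mathlib
import Pool.Agent.H748R2.DC.Spec

set_option autoImplicit false

namespace Pool.Agent.H748R2.DC

open MeasureTheory Set Filter
open scoped ENNReal Topology

theorem t_CLASS : S_CLASS := by
  intro n hn A hA hvol δ hδ R0 hR0 hδR L hL
  have hnR : (0 : ℝ) < n := by exact_mod_cast hn
  have hLR : (0 : ℝ) < L := by exact_mod_cast hL
  obtain ⟨q, hq⟩ : ∃ q : ℝ, q = 1 + 1 / (n : ℝ) := ⟨_, rfl⟩
  have hq1 : 1 < q := by
    rw [hq]
    have : 0 < 1 / (n : ℝ) := by positivity
    linarith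
  have hq0 : 0 < q := by linarith
  rw [← hq]
  obtain ⟨B, hB⟩ : ∃ B : ℕ → ℕ → Set (E n), B = fun j i =>
      closure {x | x ∈ A ∧ R0 * (q ^ (j + L * i + 1))⁻¹ < δ x ∧
        δ x ≤ R0 * (q ^ (j + L * i))⁻¹} := ⟨_, rfl⟩
  have hBA : ∀ j i, B j i ⊆ A := by
    intro j i
    rw [hB]
    exact closure_minimal (fun x hx => hx.1) hA.isClosed
  have hcov : A ⊆ ⋃ j ∈ Finset.range L, ⋃ i, B j i := by
    intro x hx
    have h1 : 1 ≤ R0 / δ x := by
      rw [le_div_iff₀ (hδ x hx), one_mul]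
      exact hδR x hx
    obtain ⟨k, hk1, hk2⟩ := exists_nat_pow_near h1 hq1
    have hpk : 0 < q ^ k := by positivity
    have hpk1 : 0 < q ^ (k + 1) := by positivity
    have h2 : δ x ≤ R0 * (q ^ k)⁻¹ := by
      rw [le_div_iff₀ (hδ x hx)] at hk1
      rw [← div_eq_mul_inv, le_div_iff₀ hpk]
      linarith
    have h3 : R0 * (q ^ (k + 1))⁻¹ < δ x := by
      rw [div_lt_iff₀ (hδ x hx)] at hk2
      rw [← div_eq_mul_inv, div_lt_iff₀ hpk1]
      linarith
    have hkL : k % L + L * (k / L) = k := Nat.mod_add_div k L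
    simp only [mem_iUnion, Finset.mem_range]
    refine ⟨k % L, Nat.mod_lt _ hL, k / L, ?_⟩
    rw [hB]
    apply subset_closure
    refine ⟨hx, ?_, ?_⟩
    · rw [hkL]
      exact h3
    · rw [hkL]
      exact h2
  have hfin : volume A ≠ ⊤ := hA.measure_lt_top.ne
  have ha : 0 < (volume A).toReal := ENNReal.toReal_pos hvol hfin
  have hfin' : ∀ j, volume (⋃ i, B j i) ≠ ⊤ := fun j =>
    ne_top_of_le_ne_top hfin (measure_mono (iUnion_subset (hBA j)))
  have hsum : (volume A).toReal ≤ ∑ j ∈ Finset.range L, (volume (⋃ i, B j i)).toReal := by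
    rw [← ENNReal.toReal_sum (fun j _ => hfin' j)]
    apply ENNReal.toReal_mono (ENNReal.sum_ne_top.2 (fun j _ => hfin' j))
    exact (measure_mono hcov).trans (measure_biUnion_finset_le _ _)
  obtain ⟨j, hj, hj2⟩ : ∃ j, j < L ∧ (volume A).toReal / L ≤ (volume (⋃ i, B j i)).toReal := by
    by_contra hcon
    push Not at hcon
    have h4 : ∑ j ∈ Finset.range L, (volume (⋃ i, B j i)).toReal <
        ∑ _j ∈ Finset.range L, (volume A).toReal / L :=
      Finset.sum_lt_sum_of_nonempty ⟨0, Finset.mem_range.2 hL⟩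
        (fun j hj => hcon j (Finset.mem_range.1 hj))
    rw [Finset.sum_const, Finset.card_range, nsmul_eq_mul, mul_div_cancel₀ _ hLR.ne'] at h4
    linarith
  have hmono : Monotone (fun m : ℕ => ⋃ i ∈ Finset.range m, B j i) := by
    intro a b hab x hx
    simp only [mem_iUnion, Finset.mem_range] at hx ⊢
    obtain ⟨i, hi, hx⟩ := hx
    exact ⟨i, lt_of_lt_of_le hi hab, hx⟩
  have hun : ⋃ m : ℕ, ⋃ i ∈ Finset.range m, B j i = ⋃ i, B j i := by
    ext x
    simp only [mem_iUnion, Finset.mem_range]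
    constructor
    · rintro ⟨m, i, _, hx⟩
      exact ⟨i, hx⟩
    · rintro ⟨i, hx⟩
      exact ⟨i + 1, i, Nat.lt_succ_self i, hx⟩
  have ht := tendsto_measure_iUnion_atTop (μ := (volume : Measure (E n))) hmono
  rw [hun] at ht
  have ht2 := (ENNReal.tendsto_toReal (hfin' j)).comp ht
  have hpos : 0 < (volume A).toReal / L := by positivity
  have hv : (volume A).toReal / L / 2 < (volume (⋃ i, B j i)).toReal := by linarith
  obtain ⟨m, hm⟩ := (ht2.eventually (eventually_gt_nhds hv)).exists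
  refine ⟨j, m, hj, ?_⟩
  have hm' : (volume A).toReal / L / 2 < (volume (⋃ i ∈ Finset.range m, B j i)).toReal := hm
  have e1 : (volume A).toReal = 2 * L * ((volume A).toReal / L / 2) := by
    field_simp
  have e2 : (volume A).toReal ≤ 2 * L * (volume (⋃ i ∈ Finset.range m, B j i)).toReal := by
    calc (volume A).toReal = 2 * L * ((volume A).toReal / L / 2) := e1
      _ ≤ 2 * L * (volume (⋃ i ∈ Finset.range m, B j i)).toReal :=
        mul_le_mul_of_nonneg_left hm'.le (by positivity)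
  rw [hB] at e2
  exact e2

end Pool.Agent.H748R2.DC
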