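import Pool.Agent.H748R2.DC.Spec

set_option autoImplicit false

namespace Pool.Agent.H748R2.DC

open MeasureTheory Set
open scoped ENNReal Pointwise

theorem h978_coord {n : ℕ} (x : E n) (i : Fin n) : |x i| ≤ ‖x‖ := by
  have h := PiLp.norm_apply_le x i
  rwa [Real.norm_eq_abs] at h

/-- a large cube -/
theorem h978_large (n : ℕ) (d D ρ : ℝ) (hD : 0 < D) (hd : D < d) :
    ∃ R0 : ℝ, 1 ≤ R0 ∧ ∀ R : ℝ, R0 ≤ R → D * (R + ρ) ^ n ≤ d * R ^ n := by
  have h1 : Filter.Tendsto (fun R : ℝ => (1 + ρ / R) ^ n) Filter.atTop (nhds ((1 + 0) ^ n)) := by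
    apply Filter.Tendsto.pow
    apply Filter.Tendsto.add tendsto_const_nhds
    exact Filter.Tendsto.const_div_atTop Filter.tendsto_id ρ
  rw [add_zero, one_pow] at h1
  have h2 : (1 : ℝ) < d / D := by rwa [one_lt_div hD]
  have h3 := h1.eventually (gt_mem_nhds h2)
  rw [Filter.eventually_atTop] at h3
  obtain ⟨R1, hR1⟩ := h3
  refine ⟨max R1 1, le_max_right _ _, fun R hR => ?_⟩
  have hR0 : 0 < R := lt_of_lt_of_le one_pos ((le_max_right _ _).trans hR)
  have h4 := hR1 R ((le_max_left _ _).trans hR)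
  have h5 : R + ρ = R * (1 + ρ / R) := by field_simp
  rw [h5, mul_pow]
  have h6 : D * (1 + ρ / R) ^ n ≤ d := by
    have := (lt_div_iff₀ hD).1 h4
    linarith
  calc D * (R ^ n * (1 + ρ / R) ^ n) = (D * (1 + ρ / R) ^ n) * R ^ n := by ring
    _ ≤ d * R ^ n := mul_le_mul_of_nonneg_right h6 (by positivity)

theorem t_CS : S_BASIC → S_AVG → S_CS := by
  intro _ hA n hn K hK d D hP hD0 hDd s hs F hF
  rcases hD0.eq_or_lt with hD | hD
  · subst hD
    refine ⟨∅, by simp, by simp, ?_⟩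
    simp
  classical
  obtain ⟨C, hC0, hC⟩ := hK.bdd.exists_pos_norm_le
  set ρ : ℝ := 2 * C + 1 with hρ
  obtain ⟨R0, hR01, hR0⟩ := h978_large n d D ρ hD hDd
  obtain ⟨R, hR, P, hPbox, hPdis, hPvol⟩ := hP R0
  have hRpos : 0 < R := by linarith
  have hRD := hR0 R hR
  set W : ℝ := R + ρ with hW
  have hWpos : 0 < W := by rw [hW, hρ]; linarith
  have hF' : IsCompact (s⁻¹ • F) := hF.smul s⁻¹
  obtain ⟨t, G, hG, hGvol⟩ := hA n hn R W hRpos.le (by rw [hW, hρ]; linarith) P hPbox _ hF'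
  -- the translates by `G` are disjoint
  have key : ∀ g ∈ G, ∀ g' ∈ G, ∀ k ∈ K, ∀ k' ∈ K, g + k = g' + k' → g = g' := by
    intro g hg g' hg' k hk k' hk' he
    obtain ⟨_, p, hp, z, hz⟩ := hG g hg
    obtain ⟨_, p', hp', z', hz'⟩ := hG g' hg'
    have hei : ∀ i, g i + k i = g' i + k' i := by
      intro i
      have := congrArg (fun x : E n => x i) he
      simpa using this
    have hk1 : ∀ i, |k' i - k i| ≤ 2 * C := by
      intro i
      have h1 := (h978_coord k i).trans (hC k hk)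
      have h2 := (h978_coord k' i).trans (hC k' hk')
      rw [abs_le] at h1 h2 ⊢
      constructor <;> linarith [h1.1, h1.2, h2.1, h2.2]
    have hzz : z = z' := by
      by_contra hne
      obtain ⟨i, hi⟩ := Function.ne_iff.1 hne
      have h1 := hz i
      have h2 := hz' i
      have h3 := hei i
      have h4 := hk1 i
      have h5 := hPbox p hp i
      have h6 := hPbox p' hp' i
      have h7 : (1 : ℝ) ≤ |((z i : ℝ)) - (z' i : ℝ)| := by
        have h8 : (1 : ℤ) ≤ |z i - z' i| := Int.one_le_abs (sub_ne_zero.2 hi)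
        exact_mod_cast h8
      rw [abs_le] at h4
      have h9 : W * ((z i : ℝ) - (z' i : ℝ)) = (k' i - k i) - (p i - p' i) := by
        linear_combination h3 - h1 + h2
      have h10 : |W * ((z i : ℝ) - (z' i : ℝ))| ≤ 2 * C + R := by
        rw [h9, abs_le]
        constructor <;> linarith [h4.1, h4.2, h5.1, h5.2, h6.1, h6.2]
      have h11 : W ≤ |W * ((z i : ℝ) - (z' i : ℝ))| := by
        rw [abs_mul, abs_of_pos hWpos]
        nlinarith
      rw [hW, hρ] at h11
      rw [hW, hρ] at h10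
      linarith
    subst hzz
    by_contra hne
    have hpp : p ≠ p' := by
      rintro rfl
      apply hne
      ext i
      rw [hz i, hz' i]
    have h1 := hPdis hp hp' hpp
    have h2 : p + k = p' + k' := by
      ext i
      have h3 := hei i
      rw [hz i, hz' i] at h3
      have : (p + k) i = p i + k i := rfl
      rw [this]
      have : (p' + k') i = p' i + k' i := rfl
      rw [this]
      linarith
    have h4 : p + k ∈ copy K p 1 := ⟨k, hk, by rw [one_smul]⟩
    have h5 : p + k ∈ copy K p' 1 := ⟨k', hk', by rw [one_smul, h2]⟩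
    exact Set.disjoint_left.1 h1 h4 h5
  refine ⟨G.image (fun x => s • x), ?_, ?_, ?_⟩
  · intro x hx
    rw [Finset.mem_coe, Finset.mem_image] at hx
    obtain ⟨g, hg, rfl⟩ := hx
    obtain ⟨f, hf, hfg⟩ := (hG g hg).1
    have : s • g = f := by
      rw [← hfg]
      simp [smul_smul, hs.ne']
    rw [this]
    exact hf
  · intro x hx y hy hxy
    rw [Finset.mem_coe, Finset.mem_image] at hx hy
    obtain ⟨g, hg, rfl⟩ := hx
    obtain ⟨g', hg', rfl⟩ := hy
    show Disjoint (copy K (s • g) s) (copy K (s • g') s)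
    rw [Set.disjoint_left]
    rintro w ⟨k, hk, rfl⟩ ⟨k', hk', hw⟩
    apply hxy
    have h1 : g + k = g' + k' := by
      have h2 : s • (g + k) = s • (g' + k') := by rw [smul_add, smul_add]; exact hw
      exact smul_right_injective _ hs.ne' h2
    rw [key g hg g' hg' k hk k' hk' h1]
  · have hcard : (G.image (fun x => s • x)).card = G.card :=
      Finset.card_image_of_injective _ (smul_right_injective _ hs.ne')
    rw [hcard]
    have hvol : (volume (s⁻¹ • F)).toReal = (s⁻¹) ^ n * (volume F).toReal := by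
      rw [Measure.addHaar_smul, ENNReal.toReal_mul, finrank_euclideanSpace_fin,
        ENNReal.toReal_ofReal (abs_nonneg _), abs_of_nonneg (by positivity)]
    rw [hvol] at hGvol
    set vF := (volume F).toReal with hvF
    set vK := (volume K).toReal with hvK
    have hvF0 : 0 ≤ vF := ENNReal.toReal_nonneg
    have hvK0 : 0 ≤ vK := ENNReal.toReal_nonneg
    have hWn : 0 < W ^ n := pow_pos hWpos n
    have hsn : 0 < s ^ n := pow_pos hs n
    have hsn' : (s⁻¹) ^ n * s ^ n = 1 := by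
      rw [← mul_pow, inv_mul_cancel₀ hs.ne', one_pow]
    have h1 : D * W ^ n ≤ (P.card : ℝ) * vK := hRD.trans hPvol
    have h2 : (D * W ^ n) * ((s⁻¹) ^ n * vF) ≤ ((P.card : ℝ) * vK) * ((s⁻¹) ^ n * vF) :=
      mul_le_mul_of_nonneg_right h1 (by positivity)
    have h3 : ((P.card : ℝ) * ((s⁻¹) ^ n * vF)) * vK ≤ ((G.card : ℝ) * W ^ n) * vK :=
      mul_le_mul_of_nonneg_right hGvol hvK0
    have h4 : W ^ n * (D * ((s⁻¹) ^ n * vF)) ≤ W ^ n * ((G.card : ℝ) * vK) := by
      calc W ^ n * (D * ((s⁻¹) ^ n * vF)) = (D * W ^ n) * ((s⁻¹) ^ n * vF) := by ring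
        _ ≤ ((P.card : ℝ) * vK) * ((s⁻¹) ^ n * vF) := h2
        _ = ((P.card : ℝ) * ((s⁻¹) ^ n * vF)) * vK := by ring
        _ ≤ ((G.card : ℝ) * W ^ n) * vK := h3
        _ = W ^ n * ((G.card : ℝ) * vK) := by ring
    have h5 : D * ((s⁻¹) ^ n * vF) ≤ (G.card : ℝ) * vK := le_of_mul_le_mul_left h4 hWn
    calc D * vF = (D * ((s⁻¹) ^ n * vF)) * s ^ n := by
          linear_combination (-D * vF) * hsn'
      _ ≤ ((G.card : ℝ) * vK) * s ^ n := mul_le_mul_of_nonneg_right h5 hsn.le
      _ = (G.card : ℝ) * (s ^ n * vK) := by ring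

end Pool.Agent.H748R2.DC
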