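import Pool.Agent.H748R2.DC.Spec

namespace Pool.Agent.H748R2.DC

open MeasureTheory Set
open scoped ENNReal

lemma h953_isOpen_Q (n : ℕ) : IsOpen (Q n) := by
  have h : Q n = ⋂ i : Fin n, {x : E n | |x i| < 1} := by
    ext x
    simp [Q]
  rw [h]
  apply isOpen_iInter_of_finite
  intro i
  exact isOpen_lt (by fun_prop) continuous_const

lemma h953_bdd_Q (n : ℕ) : Bornology.IsBounded (Q n) := by
  rw [Metric.isBounded_iff_subset_closedBall 0]
  refine ⟨Real.sqrt n, ?_⟩
  intro x hx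
  rw [mem_closedBall_zero_iff, EuclideanSpace.norm_eq]
  apply Real.sqrt_le_sqrt
  calc ∑ i, ‖x i‖ ^ 2 ≤ ∑ _i : Fin n, (1 : ℝ) := by
        apply Finset.sum_le_sum
        intro i _
        have h1 : |x i| < 1 := hx i
        rw [Real.norm_eq_abs]
        have h2 := abs_nonneg (x i)
        nlinarith
    _ = n := by simp

lemma h953_conv_Q (n : ℕ) : Convex ℝ (Q n) := by
  intro x hx y hy a b ha hb hab i
  have h1 : |x i| < 1 := hx i
  have h2 : |y i| < 1 := hy i
  have h3 : (a • x + b • y) i = a * x i + b * y i := by simp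
  rw [h3, abs_lt]
  rw [abs_lt] at h1 h2
  have hb' : b = 1 - a := by linarith
  subst hb'
  rcases eq_or_lt_of_le ha with h0 | h0
  · rw [← h0]
    constructor <;> linarith
  · rcases eq_or_lt_of_le hb with h4 | h4
    · rw [← h4]
      have : a = 1 := by linarith
      rw [this]
      constructor <;> linarith
    · constructor <;> nlinarith

lemma h953_body_Q (n : ℕ) : IsBody (Q n) where
  isOpen := h953_isOpen_Q n
  bdd := h953_bdd_Q n
  conv := h953_conv_Q n
  symm := by
    intro x hx i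
    have h1 : |x i| < 1 := hx i
    have h2 : (-x) i = -(x i) := by simp
    rw [h2, abs_neg]
    exact h1
  nonempty := ⟨0, fun i => by simp⟩

lemma h953_vol_Q (n : ℕ) : (volume (Q n)).toReal = 2 ^ n := by
  have h1 : Q n = (WithLp.ofLp : E n → (Fin n → ℝ)) ⁻¹' (Set.pi univ fun _ => Ioo (-1 : ℝ) 1) := by
    ext x
    simp only [Q, mem_setOf_eq, mem_preimage, mem_pi, mem_univ, true_implies, mem_Ioo, abs_lt]
  rw [h1, (PiLp.volume_preserving_ofLp (Fin n)).measure_preimage
    (MeasurableSet.univ_pi (fun _ => measurableSet_Ioo)).nullMeasurableSet, Real.volume_pi_Ioo]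
  rw [Finset.prod_const, Finset.card_univ, Fintype.card_fin, ENNReal.toReal_pow]
  congr 1
  rw [ENNReal.toReal_ofReal] <;> norm_num

theorem t_CUBE : S_CUBE := by
  intro n _
  refine ⟨h953_body_Q n, ?_⟩
  intro R0
  set m : ℕ := ⌈max R0 0⌉₊ with hm
  have hmR : R0 ≤ (m : ℝ) := (le_max_left _ _).trans (Nat.le_ceil _)
  have hm0 : (0 : ℝ) ≤ (m : ℝ) := Nat.cast_nonneg m
  refine ⟨2 * (m : ℝ), by linarith, ?_⟩
  classical
  let F : (Fin n → Fin (m + 1)) → E n := fun z => WithLp.toLp 2 (fun i => 2 * ((z i : ℕ) : ℝ))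
  have hF : ∀ z i, (F z) i = 2 * ((z i : ℕ) : ℝ) := fun z i => rfl
  have hinj : Function.Injective F := by
    intro z w hzw
    funext i
    have h1 : (F z) i = (F w) i := by rw [hzw]
    rw [hF, hF] at h1
    have h2 : ((z i : ℕ) : ℝ) = ((w i : ℕ) : ℝ) := by linarith
    exact Fin.ext (by exact_mod_cast h2)
  refine ⟨Finset.univ.image F, ?_, ?_, ?_⟩
  · intro p hp
    rw [Finset.mem_image] at hp
    obtain ⟨z, -, rfl⟩ := hp
    intro i
    rw [hF]
    have h1 : ((z i : ℕ) : ℝ) ≤ m := by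
      have := (z i).isLt
      exact_mod_cast Nat.lt_succ_iff.mp this
    have h2 : (0 : ℝ) ≤ ((z i : ℕ) : ℝ) := Nat.cast_nonneg _
    constructor <;> linarith
  · intro p hp q hq hpq
    rw [Finset.mem_coe, Finset.mem_image] at hp hq
    obtain ⟨z, -, rfl⟩ := hp
    obtain ⟨w, -, rfl⟩ := hq
    rw [Function.onFun, Set.disjoint_left]
    rintro y ⟨k, hk, hyk⟩ ⟨l, hl, hyl⟩
    apply hpq
    congr 1
    funext i
    have h1 : y i = 2 * ((z i : ℕ) : ℝ) + k i := by
      rw [hyk]
      simp [hF]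
    have h2 : y i = 2 * ((w i : ℕ) : ℝ) + l i := by
      rw [hyl]
      simp [hF]
    have h3 : |k i| < 1 := hk i
    have h4 : |l i| < 1 := hl i
    rw [abs_lt] at h3 h4
    have h5 : ((z i : ℕ) : ℝ) < ((w i : ℕ) : ℝ) + 1 := by linarith
    have h6 : ((w i : ℕ) : ℝ) < ((z i : ℕ) : ℝ) + 1 := by linarith
    have h7 : (z i : ℕ) < (w i : ℕ) + 1 := by exact_mod_cast h5
    have h8 : (w i : ℕ) < (z i : ℕ) + 1 := by exact_mod_cast h6
    exact Fin.ext (by omega)
  · rw [Finset.card_image_of_injective _ hinj, h953_vol_Q]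
    rw [Finset.card_univ, Fintype.card_fun, Fintype.card_fin, Fintype.card_fin]
    push_cast
    rw [one_mul, ← mul_pow]
    apply pow_le_pow_left₀ (by positivity)
    linarith

end Pool.Agent.H748R2.DC
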