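import Mathlib
import Pool.Agent.H748R2.DC.Spec

namespace Pool.Agent.H748R2.DC

open MeasureTheory Set

theorem h748_hasPack_zero {n : ℕ} (K : Set (E n)) : HasPack K 0 := by
  intro R0
  exact ⟨R0, le_rfl, ∅, by simp, by simp, by simp⟩

theorem h748_good_zero {n : ℕ} (K : Set (E n)) : Good K 0 := by
  intro A _ δ _
  exact ⟨∅, by simp, by simp, by simp, by simp⟩

theorem h748_N_pos {n : ℕ} (hn : 1 ≤ n) : 0 < 110 * (n : ℝ) * (1 + Real.log n) := by
  have h1 : (1 : ℝ) ≤ n := by exact_mod_cast hn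
  have h2 : 0 ≤ Real.log n := Real.log_nonneg h1
  positivity

theorem t_DENS (hCS : S_CS) (hG : S_GOOD) (hU : S_UP) (hO : S_ONE) (n : ℕ) (hn : 1 ≤ n)
    (K : Set (E n)) (hK : IsBody K) :
    packDensity K / (110 * n * (1 + Real.log n)) ≤ cK K ∧ cK K ≤ packDensity K := by
  have hN := h748_N_pos hn
  have hDne : {d | 0 ≤ d ∧ HasPack K d}.Nonempty := ⟨0, le_rfl, h748_hasPack_zero K⟩
  have hDb : BddAbove {d | 0 ≤ d ∧ HasPack K d} := ⟨1, fun d hd => hO n hn K hK d hd.2⟩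
  have hCne : {c | 0 ≤ c ∧ Good K c}.Nonempty := ⟨0, le_rfl, h748_good_zero K⟩
  have hsub : {c | 0 ≤ c ∧ Good K c} ⊆ {d | 0 ≤ d ∧ HasPack K d} :=
    fun c hc => ⟨hc.1, hU n hn K hK c hc.1 hc.2⟩
  have hCb : BddAbove {c | 0 ≤ c ∧ Good K c} := hDb.mono hsub
  have hc0 : 0 ≤ cK K := le_csSup hCb ⟨le_rfl, h748_good_zero K⟩
  refine ⟨?_, csSup_le_csSup hDb hCne hsub⟩
  rw [div_le_iff₀ hN]
  refine csSup_le hDne ?_
  rintro d ⟨hd0, hd⟩
  refine le_of_forall_lt fun D hD => ?_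
  rcases le_or_gt D 0 with h | h
  · have h3 : ∃ D', 0 < D' ∧ D < D' ∧ D' < d ∨ D < 0 ∨ (D = 0 ∧ 0 < d) := by
      rcases h.lt_or_eq with h4 | h4
      · exact ⟨0, Or.inr (Or.inl h4)⟩
      · exact ⟨0, Or.inr (Or.inr ⟨h4, h4 ▸ hD⟩)⟩
    obtain ⟨D', h5 | h5 | h5⟩ := h3
    · exact lt_of_lt_of_le h5.2.1 (by
        have h6 := hG n hn K hK D' h5.1 (h5.2.2.le.trans (hO n hn K hK d hd))
          (hCS n hn K hK d D' hd h5.1.le h5.2.2)
        have h7 : D' / (110 * n * (1 + Real.log n)) ≤ cK K :=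
          le_csSup hCb ⟨div_nonneg h5.1.le hN.le, h6⟩
        rwa [div_le_iff₀ hN] at h7)
    · exact lt_of_lt_of_le h5 (by positivity)
    · obtain ⟨h6, h7⟩ := h5
      rw [h6]
      have h8 := hG n hn K hK (d / 2) (by linarith) (by linarith [hO n hn K hK d hd])
          (hCS n hn K hK d (d / 2) hd (by linarith) (by linarith))
      have h9 : d / 2 / (110 * n * (1 + Real.log n)) ≤ cK K :=
          le_csSup hCb ⟨div_nonneg (by linarith) hN.le, h8⟩
      rw [div_le_iff₀ hN] at h9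
      linarith
  · -- choose D < D' < d
    obtain ⟨D', h1, h2⟩ := exists_between hD
    have h6 := hG n hn K hK D' (h.trans h1) (h2.le.trans (hO n hn K hK d hd))
          (hCS n hn K hK d D' hd (h.trans h1).le h2)
    have h7 : D' / (110 * n * (1 + Real.log n)) ≤ cK K :=
          le_csSup hCb ⟨div_nonneg (h.trans h1).le hN.le, h6⟩
    rw [div_le_iff₀ hN] at h7
    linarith

theorem t_ASYM (hCS : S_CS) (hG : S_GOOD) (hU : S_UP) (hO : S_ONE) (hC : S_CUBE) (hB : S_BALL)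
    (n : ℕ) (hn : 1 ≤ n) :
    1 / (110 * n * (1 + Real.log n)) ≤ cK (Q n) ∧
    cK (Metric.ball (0 : E n) 1) ≤ ((n : ℝ) + 2) / 2 * (2 : ℝ) ^ (-(n : ℝ) / 2) := by
  have hN := h748_N_pos hn
  obtain ⟨hQ, hQ1⟩ := hC n hn
  obtain ⟨hb, hb1⟩ := hB n hn
  constructor
  · refine le_trans ?_ (t_DENS hCS hG hU hO n hn (Q n) hQ).1
    have h1 : 1 ≤ packDensity (Q n) :=
      le_csSup ⟨1, fun d hd => hO n hn _ hQ d hd.2⟩ ⟨zero_le_one, hQ1⟩
    gcongr
  · refine le_trans (t_DENS hCS hG hU hO n hn _ hb).2 ?_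
    exact csSup_le ⟨0, le_rfl, h748_hasPack_zero _⟩ fun d hd => hb1 d hd.2

theorem t_WK (hCS : S_CS) (hG : S_GOOD) (hU : S_UP) (hO : S_ONE) (hC : S_CUBE) (hW : S_WEAK)
    (hT : S_TRANS) (h1 : S_ONEDIMR) :
    (∀ (n : ℕ), 1 ≤ n → ∀ (K : Set (E n)), IsBody K → cK K * weakConst K ≤ 1) ∧
    cK (Q 1) * weakConst (Q 1) = 1 := by
  have hgen : ∀ (n : ℕ), 1 ≤ n → ∀ (K : Set (E n)), IsBody K → cK K * weakConst K ≤ 1 := by
    intro n hn K hK
    have hDb : BddAbove {d | 0 ≤ d ∧ HasPack K d} := ⟨1, fun d hd => hO n hn K hK d hd.2⟩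
    have hsub : {c | 0 ≤ c ∧ Good K c} ⊆ {d | 0 ≤ d ∧ HasPack K d} :=
      fun c hc => ⟨hc.1, hU n hn K hK c hc.1 hc.2⟩
    have hCb : BddAbove {c | 0 ≤ c ∧ Good K c} := hDb.mono hsub
    have hCne : {c | 0 ≤ c ∧ Good K c}.Nonempty := ⟨0, le_rfl, h748_good_zero K⟩
    have hw0 : 0 ≤ weakConst K := Real.sInf_nonneg fun A hA => hA.1
    rcases hw0.eq_or_lt with h | h
    · rw [← h]; norm_num
    · rw [← le_div_iff₀ h]
      refine csSup_le hCne ?_
      rintro c ⟨hc0, hc⟩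
      rcases hc0.eq_or_lt with h2 | h2
      · rw [← h2]; positivity
      · rw [le_div_iff₀ h, mul_comm, ← le_div_iff₀ h2]
        exact csInf_le ⟨0, fun A hA => hA.1⟩ ⟨by positivity, hW n hn K hK c h2 hc⟩
  refine ⟨hgen, le_antisymm (hgen 1 le_rfl _ (hC 1 le_rfl).1) ?_⟩
  obtain ⟨hQ, hQ1⟩ := hC 1 le_rfl
  have hDb : BddAbove {d | 0 ≤ d ∧ HasPack (Q 1) d} := ⟨1, fun d hd => hO 1 le_rfl _ hQ d hd.2⟩
  have hsub : {c | 0 ≤ c ∧ Good (Q 1) c} ⊆ {d | 0 ≤ d ∧ HasPack (Q 1) d} :=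
      fun c hc => ⟨hc.1, hU 1 le_rfl _ hQ c hc.1 hc.2⟩
  have hCb : BddAbove {c | 0 ≤ c ∧ Good (Q 1) c} := hDb.mono hsub
  have hcpos : 0 < cK (Q 1) := by
    have h := (t_DENS hCS hG hU hO 1 le_rfl (Q 1) hQ).1
    have h2 : 1 ≤ packDensity (Q 1) := le_csSup hDb ⟨zero_le_one, hQ1⟩
    have hN := h748_N_pos (le_refl 1)
    have h3 : 0 < packDensity (Q 1) / (110 * ((1 : ℕ) : ℝ) * (1 + Real.log ((1 : ℕ) : ℝ))) := by
      have : 0 < packDensity (Q 1) := by linarith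
      positivity
    linarith
  -- nonempty set of admissible constants
  have hWne : {A | 0 ≤ A ∧ Weak (Q 1) A}.Nonempty := by
    have : ∃ c, 0 < c ∧ Good (Q 1) c := by
      by_contra hcon
      push Not at hcon
      have : cK (Q 1) ≤ 0 := by
        refine csSup_le ⟨0, le_rfl, h748_good_zero _⟩ ?_
        rintro c ⟨_, hc⟩
        by_contra hlt
        exact hcon c (not_le.mp hlt) hc
      linarith
    obtain ⟨c, hc0, hc⟩ := this
    exact ⟨1 / c, by positivity, hW 1 le_rfl _ hQ c hc0 hc⟩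
  -- each admissible constant is at least 1 / c(K)
  have key : ∀ A, 0 < A → Weak (Q 1) A → 1 / A ≤ cK (Q 1) := by
    intro A hA hwA
    refine le_of_forall_lt fun c hc => ?_
    obtain ⟨c', h1c, h2c⟩ := exists_between hc
    rcases le_or_gt c' 0 with h | h
    · exact lt_of_lt_of_le h1c (h.trans hcpos.le)
    · exact lt_of_lt_of_le h1c (le_csSup hCb ⟨h.le, hT.1 c' (h1 A hA (hT.2 A hwA) c' h.le h2c)⟩)
  have hinf : 1 / cK (Q 1) ≤ weakConst (Q 1) := by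
    refine le_csInf hWne ?_
    rintro A ⟨hA0, hA⟩
    rw [div_le_iff₀ hcpos, mul_comm]
    rcases hA0.eq_or_lt with h | h
    · -- A = 0 : every positive constant is admissible
      exfalso
      have h3 : ∀ B, 0 < B → 1 / B ≤ cK (Q 1) := by
        intro B hB
        refine key B hB fun μ hμ => (hA μ hμ).trans ?_
        rw [← h]
        simp
      have h4 := h3 (1 / (cK (Q 1) + 1)) (by positivity)
      rw [one_div_one_div] at h4
      linarith
    · have := key A h hA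
      rw [div_le_iff₀ h] at this
      exact this
  rw [div_le_iff₀ hcpos] at hinf
  linarith

end Pool.Agent.H748R2.DC
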