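import Pool.Agent.H748R2.DC.Spec

/-! T3: from the constant scale property to the property in the definition of the constant. -/

namespace Pool.Agent.H748R2.DC

open MeasureTheory Set
open scoped ENNReal

theorem h115_qL {n : ℕ} (hn : 1 ≤ n) {L : ℕ} (hL : ((n : ℝ) + 1) * Real.log n ≤ L) :
    (n : ℝ) ≤ (1 + 1 / (n : ℝ)) ^ L := by
  have hn0 : (0 : ℝ) < n := by exact_mod_cast hn
  have hq : (0 : ℝ) < 1 + 1 / (n : ℝ) := by positivity
  have h1 : 1 / ((n : ℝ) + 1) ≤ Real.log (1 + 1 / (n : ℝ)) := by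
    have h2 := Real.one_sub_inv_le_log_of_pos hq
    have h3 : 1 - (1 + 1 / (n : ℝ))⁻¹ = 1 / ((n : ℝ) + 1) := by
      field_simp
      ring
    rwa [h3] at h2
  have h4 : Real.log n ≤ L * Real.log (1 + 1 / (n : ℝ)) := by
    calc Real.log n = ((n : ℝ) + 1) * Real.log n * (1 / ((n : ℝ) + 1)) := by field_simp
      _ ≤ L * (1 / ((n : ℝ) + 1)) := mul_le_mul_of_nonneg_right hL (by positivity)
      _ ≤ L * Real.log (1 + 1 / (n : ℝ)) := mul_le_mul_of_nonneg_left h1 (by positivity)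
  calc (n : ℝ) = Real.exp (Real.log n) := (Real.exp_log hn0).symm
    _ ≤ Real.exp (L * Real.log (1 + 1 / (n : ℝ))) := Real.exp_le_exp.2 h4
    _ = (1 + 1 / (n : ℝ)) ^ L := by rw [Real.exp_nat_mul, Real.exp_log hq]

theorem h115_q2n {n : ℕ} (hn : 1 ≤ n) :
    ((1 + 1 / (n : ℝ)) ^ 2) ^ n ≤ Real.exp 1 ^ 2 := by
  have hn0 : (0 : ℝ) < n := by exact_mod_cast hn
  have h1 : 1 + 1 / (n : ℝ) ≤ Real.exp (1 / n) := by
    have := Real.add_one_le_exp (1 / (n : ℝ))
    linarith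
  have h2 : (1 + 1 / (n : ℝ)) ^ n ≤ Real.exp 1 := by
    calc (1 + 1 / (n : ℝ)) ^ n ≤ Real.exp (1 / n) ^ n := by gcongr
      _ = Real.exp 1 := by
        rw [← Real.exp_nat_mul]
        congr 1
        field_simp
  calc ((1 + 1 / (n : ℝ)) ^ 2) ^ n = ((1 + 1 / (n : ℝ)) ^ n) ^ 2 := by
        rw [← pow_mul, ← pow_mul, mul_comm]
    _ ≤ Real.exp 1 ^ 2 := by gcongr

theorem h115_L {n : ℕ} (hn : 1 ≤ n) :
    ((⌈((n : ℝ) + 1) * Real.log n⌉₊ + 1 : ℕ) : ℝ) ≤ 2 * n * (1 + Real.log n) := by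
  have hn1 : (1 : ℝ) ≤ n := by exact_mod_cast hn
  have hl : 0 ≤ Real.log n := Real.log_nonneg hn1
  have h1 := (Nat.ceil_lt_add_one (a := ((n : ℝ) + 1) * Real.log n) (by positivity)).le
  push_cast
  nlinarith

theorem h115_const {n : ℕ} (hn : 1 ≤ n) {D : ℝ} (hD : 0 < D) {L : ℝ} (hL0 : 0 < L)
    (hL : L ≤ 2 * n * (1 + Real.log n)) :
    D / (110 * n * (1 + Real.log n)) ≤ D / (Real.exp 1 ^ 2 * (1 + Real.exp 1) * (2 * L)) := by
  have hn1 : (1 : ℝ) ≤ n := by exact_mod_cast hn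
  have hl : 0 ≤ Real.log n := Real.log_nonneg hn1
  apply div_le_div_of_nonneg_left hD.le (by positivity)
  have he := Real.exp_one_lt_d9
  have he0 := Real.exp_pos 1
  have h1 : Real.exp 1 ^ 2 * (1 + Real.exp 1) ≤ 27.5 := by
    have h2 : Real.exp 1 ^ 2 ≤ 7.3891 := by nlinarith
    nlinarith
  have h3 : 0 ≤ (n : ℝ) * (1 + Real.log n) := by positivity
  calc Real.exp 1 ^ 2 * (1 + Real.exp 1) * (2 * L)
      ≤ 27.5 * (2 * L) := by gcongr
    _ ≤ 27.5 * (2 * (2 * n * (1 + Real.log n))) := by gcongr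
    _ = 110 * n * (1 + Real.log n) := by ring

theorem t_GOOD : S_BASIC → S_CLASS → S_MULTI → S_GOOD := by
  classical
  intro hB hCl hM n hn K hK D hD hD1 hCS
  obtain ⟨h0K, hv, hvtop, hopen, hbdd, hvol, hmem, hmono, hdisj, hndisj, hpert⟩ := hB n K hK
  have hn1 : (1 : ℝ) ≤ n := by exact_mod_cast hn
  have hn0 : (0 : ℝ) < n := by linarith
  have hl : 0 ≤ Real.log n := Real.log_nonneg hn1
  set c : ℝ := D / (110 * n * (1 + Real.log n)) with hc
  have hc0 : 0 < c := by positivity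
  set v : ℝ := (volume K).toReal with hvdef
  intro A hA δ hδ
  by_cases hA0 : volume A = 0
  · refine ⟨∅, empty_subset _, countable_empty, pairwiseDisjoint_empty, ?_⟩
    rw [hA0, mul_zero]
    exact bot_le
  have hAtop : volume A ≠ ⊤ := hA.measure_lt_top.ne
  have hcA : ENNReal.ofReal c * volume A = ENNReal.ofReal (c * (volume A).toReal) := by
    rw [ENNReal.ofReal_mul hc0.le, ENNReal.ofReal_toReal hAtop]
  by_cases hbd : ∃ R : ℝ, ∀ x ∈ A, δ x ≤ R
  swap
  · push Not at hbd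
    obtain ⟨x, hx, hxR⟩ := hbd (1 + c * (volume A).toReal / v)
    refine ⟨{x}, singleton_subset_iff.2 hx, countable_singleton x, pairwiseDisjoint_singleton _ _, ?_⟩
    have h1 : ∑' y : ({x} : Set (E n)), volume (copy K (y : E n) (δ y)) =
        volume (copy K x (δ x)) := tsum_singleton x (fun y => volume (copy K y (δ y)))
    rw [h1, hvol x _ (hδ x hx), hcA]
    apply ENNReal.ofReal_le_ofReal
    have h2 : 0 ≤ c * (volume A).toReal / v := by positivity
    have h3 : (1 : ℝ) ≤ δ x := by linarith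
    have h4 : δ x ≤ δ x ^ n := le_self_pow₀ h3 (by omega)
    have h5 : c * (volume A).toReal / v ≤ δ x ^ n := by linarith
    rwa [div_le_iff₀ hv] at h5
  obtain ⟨R', hR'⟩ := hbd
  obtain ⟨R0, hR0, hR⟩ : ∃ R0 : ℝ, 0 < R0 ∧ ∀ x ∈ A, δ x ≤ R0 :=
    ⟨max R' 1, lt_of_lt_of_le one_pos (le_max_right _ _),
      fun x hx => (hR' x hx).trans (le_max_left _ _)⟩
  set q : ℝ := 1 + 1 / (n : ℝ) with hq
  have hq1 : 1 < q := by
    rw [hq]
    have : 0 < 1 / (n : ℝ) := by positivity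
    linarith
  have hq0 : 0 < q := by linarith
  set L : ℕ := ⌈((n : ℝ) + 1) * Real.log n⌉₊ + 1 with hL
  have hL1 : 1 ≤ L := by omega
  have hL0 : (0 : ℝ) < L := by exact_mod_cast hL1
  have hLn : ((n : ℝ) + 1) * Real.log n ≤ L := by
    rw [hL]
    push_cast
    have := Nat.le_ceil (((n : ℝ) + 1) * Real.log n)
    linarith
  have hqL : (n : ℝ) ≤ q ^ L := h115_qL hn hLn
  have hL2 : (L : ℝ) ≤ 2 * n * (1 + Real.log n) := h115_L hn
  obtain ⟨j, m, hj, hcl⟩ := hCl n hn A hA hA0 δ hδ R0 hR0 hR L hL1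
  set r : ℕ → ℝ := fun i => R0 * (q ^ (j + L * i))⁻¹ with hr
  have hr0 : ∀ i, 0 < r i := fun i => by positivity
  set C : ℕ → Set (E n) := fun i => {x | x ∈ A ∧ R0 * (q ^ (j + L * i + 1))⁻¹ < δ x ∧
      δ x ≤ R0 * (q ^ (j + L * i))⁻¹} with hC
  have hCA : ∀ i, C i ⊆ A := fun i x hx => hx.1
  have hBc : ∀ i, IsCompact (closure (C i)) := fun i =>
    hA.of_isClosed_subset isClosed_closure (closure_minimal (hCA i) hA.isClosed)
  have hsep : ∀ i k, i < k → k < m → (n : ℝ) * (q * r k) ≤ q * r i := by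
    intro i k hik _
    obtain ⟨d, rfl⟩ := Nat.exists_eq_add_of_lt hik
    have h1 : r i = r (i + d + 1) * q ^ (L * (d + 1)) := by
      simp only [hr]
      have h2 : j + L * (i + d + 1) = (j + L * i) + L * (d + 1) := by ring
      rw [h2, pow_add q (j + L * i)]
      field_simp
    have h3 : (n : ℝ) ≤ q ^ (L * (d + 1)) := by
      refine hqL.trans (pow_le_pow_right₀ hq1.le ?_)
      exact Nat.le_mul_of_pos_right _ (by omega)
    rw [h1]
    have h4 : 0 < q * r (i + d + 1) := mul_pos hq0 (hr0 _)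
    calc (n : ℝ) * (q * r (i + d + 1)) ≤ q ^ (L * (d + 1)) * (q * r (i + d + 1)) :=
          mul_le_mul_of_nonneg_right h3 h4.le
      _ = q * (r (i + d + 1) * q ^ (L * (d + 1))) := by ring
  obtain ⟨P, hPB, hPd, hPs⟩ := hM n hn K hK D hD hD1 hCS m (fun i => q * r i)
    (fun i _ => mul_pos hq0 (hr0 i)) hsep (fun i => closure (C i)) (fun i _ => hBc i)
  set I : Finset (Σ _ : ℕ, E n) := (Finset.range m).sigma P with hI
  have hIm : ∀ p ∈ I, p.1 < m ∧ p.2 ∈ P p.1 := by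
    intro p hp
    rw [hI, Finset.mem_sigma, Finset.mem_range] at hp
    exact hp
  have hex : ∀ p : (Σ _ : ℕ, E n), p ∈ I → ∃ y, y ∈ C p.1 ∧ y ∈ copy K p.2 ((q - 1) * r p.1) := by
    intro p hp
    obtain ⟨h1, h2⟩ := hIm p hp
    have h3 : p.2 ∈ closure (C p.1) := hPB p.1 h1 h2
    have h4 : 0 < (q - 1) * r p.1 := mul_pos (by linarith) (hr0 _)
    obtain ⟨y, hy1, hy2⟩ := mem_closure_iff.1 h3 _ (hopen p.2 _ h4) (hmem p.2 _ h4)
    exact ⟨y, hy2, hy1⟩
  choose! f hf1 hf2 using hex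
  have hfA : ∀ p ∈ I, f p ∈ A := fun p hp => hCA _ (hf1 p hp)
  have hsub : ∀ p ∈ I, copy K (f p) (δ (f p)) ⊆ copy K p.2 (q * r p.1) := by
    intro p hp
    have h1 := hf1 p hp
    have h2 : copy K (f p) (δ (f p)) ⊆ copy K (f p) (r p.1) :=
      hmono _ _ _ (hδ _ h1.1) h1.2.2
    have h4 : 0 < (q - 1) * r p.1 := mul_pos (by linarith) (hr0 _)
    have h3 := hpert p.2 (f p) ((q - 1) * r p.1) (r p.1) h4 (hr0 _) (hf2 p hp)
    have h5 : (q - 1) * r p.1 + r p.1 = q * r p.1 := by ring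
    rw [h5] at h3
    exact h2.trans h3
  have hdis : ∀ p ∈ I, ∀ p' ∈ I, p ≠ p' →
      Disjoint (copy K p.2 (q * r p.1)) (copy K p'.2 (q * r p'.1)) := by
    intro p hp p' hp' hne
    obtain ⟨h1, h2⟩ := hIm p hp
    obtain ⟨h1', h2'⟩ := hIm p' hp'
    refine hPd p.1 h1 p'.1 h1' p.2 h2 p'.2 h2' ?_
    by_contra hcon
    push Not at hcon
    apply hne
    obtain ⟨a, b⟩ := p
    obtain ⟨a', b'⟩ := p'
    obtain ⟨rfl, rfl⟩ := hcon
    rfl
  have hdis2 : ∀ p ∈ I, ∀ p' ∈ I, p ≠ p' →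
      Disjoint (copy K (f p) (δ (f p))) (copy K (f p') (δ (f p'))) := fun p hp p' hp' hne =>
    (hdis p hp p' hp' hne).mono (hsub p hp) (hsub p' hp')
  have hinj : Set.InjOn f (I : Set (Σ _ : ℕ, E n)) := by
    intro p hp p' hp' he
    by_contra hne
    have h1 := hdis2 p hp p' hp' hne
    rw [he] at h1
    exact Set.disjoint_left.1 h1 (hmem _ _ (hδ _ (hfA p' hp'))) (hmem _ _ (hδ _ (hfA p' hp')))
  refine ⟨((I.image f : Finset (E n)) : Set (E n)), ?_, (I.image f).countable_toSet, ?_, ?_⟩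
  · intro y hy
    rw [Finset.mem_coe, Finset.mem_image] at hy
    obtain ⟨p, hp, rfl⟩ := hy
    exact hfA p hp
  · intro y hy y' hy' hne
    rw [Finset.mem_coe, Finset.mem_image] at hy hy'
    obtain ⟨p, hp, rfl⟩ := hy
    obtain ⟨p', hp', rfl⟩ := hy'
    exact hdis2 p hp p' hp' (fun h => hne (by rw [h]))
  · have hts : ∑' x : ((I.image f : Finset (E n)) : Set (E n)), volume (copy K (x : E n) (δ x)) =
        ∑ x ∈ I.image f, volume (copy K x (δ x)) :=
      Finset.tsum_subtype' (I.image f) (fun x => volume (copy K x (δ x)))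
    rw [hts, Finset.sum_image hinj]
    have h1 : ∑ p ∈ I, volume (copy K (f p) (δ (f p))) =
        ENNReal.ofReal (∑ p ∈ I, δ (f p) ^ n * v) := by
      rw [ENNReal.ofReal_sum_of_nonneg (fun p hp => by
        have := hδ _ (hfA p hp)
        positivity)]
      refine Finset.sum_congr rfl fun p hp => ?_
      rw [hvol _ _ (hδ _ (hfA p hp))]
    rw [h1, hcA]
    apply ENNReal.ofReal_le_ofReal
    -- the real inequality
    have h2 : ∀ p ∈ I, ((q ^ 2) ^ n)⁻¹ * ((q * r p.1) ^ n * v) ≤ δ (f p) ^ n * v := by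
      intro p hp
      have h3 := (hf1 p hp).2.1
      have h4 : R0 * (q ^ (j + L * p.1 + 1))⁻¹ = (q * r p.1) / q ^ 2 := by
        simp only [hr]
        rw [pow_succ q (j + L * p.1)]
        field_simp
      rw [h4] at h3
      have h5 : 0 < q * r p.1 := mul_pos hq0 (hr0 _)
      have h6 : ((q * r p.1) / q ^ 2) ^ n ≤ δ (f p) ^ n :=
        pow_le_pow_left₀ (by positivity) h3.le n
      calc ((q ^ 2) ^ n)⁻¹ * ((q * r p.1) ^ n * v) = ((q * r p.1) / q ^ 2) ^ n * v := by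
            rw [div_pow]
            ring
        _ ≤ δ (f p) ^ n * v := mul_le_mul_of_nonneg_right h6 hv.le
    have h7 : ∑ p ∈ I, ((q * r p.1) ^ n * v) =
        ∑ i ∈ Finset.range m, ((P i).card : ℝ) * ((q * r i) ^ n * v) := by
      rw [hI, Finset.sum_sigma]
      refine Finset.sum_congr rfl fun i _ => ?_
      simp only [Finset.sum_const, nsmul_eq_mul]
    have h8 : ((q ^ 2) ^ n)⁻¹ * ∑ i ∈ Finset.range m, ((P i).card : ℝ) * ((q * r i) ^ n * v) ≤
        ∑ p ∈ I, δ (f p) ^ n * v := by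
      rw [← h7, Finset.mul_sum]
      exact Finset.sum_le_sum h2
    refine le_trans ?_ h8
    have hq2 : (q ^ 2) ^ n ≤ Real.exp 1 ^ 2 := h115_q2n hn
    set W : ℝ := (volume (⋃ i ∈ Finset.range m, closure (C i))).toReal with hW
    have hW0 : 0 ≤ W := ENNReal.toReal_nonneg
    have he0 := Real.exp_pos 1
    have h9 : D / (1 + Real.exp 1) * W ≤
        ∑ i ∈ Finset.range m, ((P i).card : ℝ) * ((q * r i) ^ n * v) := by
      rw [div_mul_eq_mul_div, div_le_iff₀ (by positivity)]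
      rw [mul_comm (∑ i ∈ Finset.range m, ((P i).card : ℝ) * ((q * r i) ^ n * v))]
      exact hPs
    have h10 : (volume A).toReal ≤ 2 * L * W := hcl
    have h11 := h115_const hn hD hL0 hL2
    calc c * (volume A).toReal
        ≤ D / (Real.exp 1 ^ 2 * (1 + Real.exp 1) * (2 * L)) * (volume A).toReal :=
          mul_le_mul_of_nonneg_right h11 ENNReal.toReal_nonneg
      _ ≤ D / (Real.exp 1 ^ 2 * (1 + Real.exp 1) * (2 * L)) * (2 * L * W) :=
          mul_le_mul_of_nonneg_left h10 (by positivity)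
      _ = (Real.exp 1 ^ 2)⁻¹ * (D / (1 + Real.exp 1) * W) := by field_simp
      _ ≤ ((q ^ 2) ^ n)⁻¹ * (D / (1 + Real.exp 1) * W) := by
          apply mul_le_mul_of_nonneg_right _ (by positivity)
          exact inv_anti₀ (by positivity) hq2
      _ ≤ _ := mul_le_mul_of_nonneg_left h9 (by positivity)

end Pool.Agent.H748R2.DC
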