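import Pool.Agent.H748R2.DC.Spec

namespace Pool.Agent.H748R2.DC

open MeasureTheory Set
open scoped ENNReal

lemma h953_radial (n : ℕ) (hn : 1 ≤ n) :
    ∫ y in Ioi (0 : ℝ), y ^ (n - 1) * max 0 (2 - y ^ 2) =
      (2 : ℝ) ^ ((n : ℝ) / 2) * (4 / ((n : ℝ) * ((n : ℝ) + 2))) := by
  have hs0 : (0 : ℝ) ≤ Real.sqrt 2 := Real.sqrt_nonneg 2
  have hs2 : Real.sqrt 2 ^ 2 = 2 := Real.sq_sqrt (by norm_num)
  have h1 : ∫ y in Ioi (0 : ℝ), y ^ (n - 1) * max 0 (2 - y ^ 2) =
      ∫ y in Ioc (0 : ℝ) (Real.sqrt 2), y ^ (n - 1) * (2 - y ^ 2) := by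
    rw [← integral_indicator measurableSet_Ioi, ← integral_indicator measurableSet_Ioc]
    congr 1
    funext y
    by_cases hy : y ∈ Ioc (0 : ℝ) (Real.sqrt 2)
    · have hy1 : y ∈ Ioi (0 : ℝ) := hy.1
      rw [indicator_of_mem hy1, indicator_of_mem hy]
      have h2 : y ^ 2 ≤ 2 := by
        rw [← hs2]
        exact pow_le_pow_left₀ (le_of_lt hy.1) hy.2 2
      rw [max_eq_right (by linarith)]
    · rw [indicator_of_notMem hy]
      by_cases hy1 : y ∈ Ioi (0 : ℝ)
      · rw [indicator_of_mem hy1]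
        have h3 : Real.sqrt 2 < y := by
          by_contra hc
          exact hy ⟨hy1, not_lt.mp hc⟩
        have h4 : 2 ≤ y ^ 2 := by
          rw [← hs2]
          exact pow_le_pow_left₀ hs0 h3.le 2
        rw [max_eq_left (by linarith), mul_zero]
      · rw [indicator_of_notMem hy1]
  rw [h1, ← intervalIntegral.integral_of_le hs0]
  have h2 : ∀ y : ℝ, y ^ (n - 1) * (2 - y ^ 2) = 2 * y ^ (n - 1) - y ^ (n + 1) := by
    intro y
    have : n + 1 = (n - 1) + 2 := by omega
    rw [this, pow_add]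
    ring
  simp_rw [h2]
  rw [intervalIntegral.integral_sub, intervalIntegral.integral_const_mul, integral_pow, integral_pow]
  · have h3 : n - 1 + 1 = n := by omega
    rw [h3]
    have h4 : ((n - 1 : ℕ) : ℝ) + 1 = n := by
      rw [Nat.cast_sub hn]
      push_cast
      ring
    rw [h4]
    have hn0 : (n : ℝ) ≠ 0 := by
      have : n ≠ 0 := by omega
      exact_mod_cast this
    have hn2 : (n : ℝ) + 2 ≠ 0 := by positivity
    have h5 : Real.sqrt 2 ^ n = (2 : ℝ) ^ ((n : ℝ) / 2) := by
      rw [Real.sqrt_eq_rpow, ← Real.rpow_natCast, ← Real.rpow_mul (by norm_num)]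
      congr 1
      ring
    have h6 : Real.sqrt 2 ^ (n + 1 + 1) = 2 * (2 : ℝ) ^ ((n : ℝ) / 2) := by
      rw [show n + 1 + 1 = n + 2 by ring, pow_add, hs2, h5]
      ring
    rw [h6, h5, zero_pow (by omega), zero_pow (by omega)]
    push_cast
    have h7 : (n : ℝ) + 1 + 1 = (n : ℝ) + 2 := by ring
    rw [h7]
    field_simp
    ring
  · exact (Continuous.intervalIntegrable (by fun_prop) _ _)
  · exact (Continuous.intervalIntegrable (by fun_prop) _ _)

theorem t_INTB : S_INTB := by
  intro n hn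
  have hn0 : (n : ℝ) ≠ 0 := by
    have : n ≠ 0 := by omega
    exact_mod_cast this
  have : Nonempty (Fin n) := ⟨⟨0, hn⟩⟩
  constructor
  · apply Continuous.integrable_of_hasCompactSupport
    · fun_prop
    · apply HasCompactSupport.of_support_subset_isCompact
        (isCompact_closedBall (0 : E n) (Real.sqrt 2))
      intro x hx
      rw [mem_closedBall_zero_iff]
      by_contra hc
      push Not at hc
      apply hx
      have h4 : 2 ≤ ‖x‖ ^ 2 := by
        have hs2 : Real.sqrt 2 ^ 2 = 2 := Real.sq_sqrt (by norm_num)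
        rw [← hs2]
        exact pow_le_pow_left₀ (Real.sqrt_nonneg 2) hc.le 2
      exact max_eq_left (by linarith)
  · have h1 := integral_fun_norm_addHaar (volume : Measure (E n))
      (fun r : ℝ => max 0 (2 - r ^ 2))
    rw [h1, finrank_euclideanSpace_fin]
    simp only [smul_eq_mul, nsmul_eq_mul]
    rw [h953_radial n hn]
    rw [Measure.real]
    have hn2 : (n : ℝ) + 2 ≠ 0 := by positivity
    field_simp

end Pool.Agent.H748R2.DC
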