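import Pool.Agent.H748R2.DC.Spec

/-!
# Greedy selection over finitely many separated scales (S_MULTI)
-/

namespace Pool.Agent.H748R2.DC

open MeasureTheory Set
open scoped ENNReal

theorem h431_greedy {n : ℕ} (hn : 1 ≤ n) {K : Set (E n)}
    (hopen : ∀ x t, 0 < t → IsOpen (copy K x t))
    (hmono : ∀ x s t, 0 < s → s ≤ t → copy K x s ⊆ copy K x t)
    (hdisj : ∀ x y s t, 0 < s → 0 < t → y ∉ copy K x (s + t) → Disjoint (copy K x s) (copy K y t))
    {D : ℝ} (hCS : CS K D) (s : ℕ → ℝ) (B : ℕ → Set (E n)) : ∀ m : ℕ, (∀ i < m, 0 < s i) →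
    (∀ i j, i < j → j < m → (n : ℝ) * s j ≤ s i) → (∀ i < m, IsCompact (B i)) →
    ∃ (P : ℕ → Finset (E n)) (F : ℕ → Set (E n)), (∀ i < m, (P i : Set (E n)) ⊆ B i) ∧
      (∀ i < m, IsCompact (F i)) ∧
      (∀ i < m, D * (volume (F i)).toReal ≤ ((P i).card : ℝ) * ((s i) ^ n * (volume K).toReal)) ∧
      (∀ i < m, B i ⊆ F i ∪ ⋃ l ∈ Finset.range m, ⋃ x ∈ P l, copy K x (s l * (1 + 1 / (n : ℝ)))) ∧
      (∀ i < m, ∀ j < m, ∀ x ∈ P i, ∀ y ∈ P j, (i ≠ j ∨ x ≠ y) →
        Disjoint (copy K x (s i)) (copy K y (s j))) := by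
  have hn0 : (0 : ℝ) < n := by exact_mod_cast hn
  intro m
  induction m with
  | zero =>
    intro _ _ _
    exact ⟨fun _ => ∅, fun _ => ∅, fun i hi => absurd hi (Nat.not_lt_zero i),
      fun i hi => absurd hi (Nat.not_lt_zero i), fun i hi => absurd hi (Nat.not_lt_zero i),
      fun i hi => absurd hi (Nat.not_lt_zero i), fun i hi => absurd hi (Nat.not_lt_zero i)⟩
  | succ m ih =>
    intro hs hsep hB
    obtain ⟨P, F, h1, h2, h3, h4, h5⟩ := ih (fun i hi => hs i (by omega))
      (fun i j hij hj => hsep i j hij (by omega)) (fun i hi => hB i (by omega))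
    set U : Set (E n) := ⋃ l ∈ Finset.range m, ⋃ x ∈ P l, copy K x (s l * (1 + 1 / (n : ℝ)))
      with hU
    have hUo : IsOpen U := by
      refine isOpen_biUnion fun l hl => isOpen_biUnion fun x _ => hopen _ _ ?_
      have := hs l (by have := Finset.mem_range.1 hl; omega)
      positivity
    have hFm : IsCompact (B m \ U) := (hB m (by omega)).diff hUo
    have hsm := hs m (by omega)
    obtain ⟨Q, hQ1, hQ2, hQ3⟩ := hCS (s m) hsm (B m \ U) hFm
    have hPl : ∀ l, l < m → Function.update P m Q l = P l := fun l hl =>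
      Function.update_of_ne hl.ne _ _
    have hPm : Function.update P m Q m = Q := Function.update_self _ _ _
    have hFl : ∀ l, l < m → Function.update F m (B m \ U) l = F l := fun l hl =>
      Function.update_of_ne hl.ne _ _
    have hFm' : Function.update F m (B m \ U) m = B m \ U := Function.update_self _ _ _
    have hUU : U ⊆ ⋃ l ∈ Finset.range (m + 1), ⋃ x ∈ Function.update P m Q l,
        copy K x (s l * (1 + 1 / (n : ℝ))) := by
      intro z hz
      rw [hU] at hz
      simp only [mem_iUnion, Finset.mem_range, exists_prop] at hz ⊢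
      obtain ⟨l, hl, x, hx, hz⟩ := hz
      exact ⟨l, by omega, x, by rw [hPl l hl]; exact hx, hz⟩
    -- the new points are far from the old ones
    have hnew : ∀ i < m, ∀ x ∈ P i, ∀ y ∈ Q, Disjoint (copy K x (s i)) (copy K y (s m)) := by
      intro i hi x hx y hy
      have hsi := hs i (by omega)
      refine hdisj x y (s i) (s m) hsi hsm fun hmem => ?_
      have hy' := (hQ1 hy).2
      apply hy'
      rw [hU]
      simp only [mem_iUnion, Finset.mem_range, exists_prop]
      refine ⟨i, hi, x, hx, hmono x (s i + s m) _ (by positivity) ?_ hmem⟩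
      have h := hsep i m hi (by omega)
      have h' : s m ≤ s i / n := by
        rw [le_div_iff₀ hn0]; linarith
      calc s i + s m ≤ s i + s i / n := by linarith
        _ = s i * (1 + 1 / (n : ℝ)) := by ring
    refine ⟨Function.update P m Q, Function.update F m (B m \ U), ?_, ?_, ?_, ?_, ?_⟩
    · intro i hi
      rcases Nat.lt_succ_iff_lt_or_eq.1 hi with h | rfl
      · rw [hPl i h]; exact h1 i h
      · rw [hPm]; exact hQ1.trans sdiff_subset
    · intro i hi
      rcases Nat.lt_succ_iff_lt_or_eq.1 hi with h | rfl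
      · rw [hFl i h]; exact h2 i h
      · rw [hFm']; exact hFm
    · intro i hi
      rcases Nat.lt_succ_iff_lt_or_eq.1 hi with h | rfl
      · rw [hFl i h, hPl i h]; exact h3 i h
      · rw [hFm', hPm]; exact hQ3
    · intro i hi
      rcases Nat.lt_succ_iff_lt_or_eq.1 hi with h | rfl
      · rw [hFl i h]
        exact (h4 i h).trans (union_subset_union_right _ hUU)
      · rw [hFm']
        intro z hz
        by_cases hzU : z ∈ U
        · exact Or.inr (hUU hzU)
        · exact Or.inl ⟨hz, hzU⟩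
    · intro i hi j hj x hx y hy hne
      rcases Nat.lt_succ_iff_lt_or_eq.1 hi with h | h
      · rw [hPl i h] at hx
        rcases Nat.lt_succ_iff_lt_or_eq.1 hj with h' | h'
        · rw [hPl j h'] at hy
          exact h5 i h j h' x hx y hy hne
        · subst h'
          rw [hPm] at hy
          exact hnew i h x hx y hy
      · subst h
        rw [hPm] at hx
        rcases Nat.lt_succ_iff_lt_or_eq.1 hj with h' | h'
        · rw [hPl j h'] at hy
          exact (hnew j h' y hy x hx).symm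
        · subst h'
          rw [hPm] at hy
          rcases hne with hne | hne
          · exact absurd rfl hne
          · exact hQ2 (Finset.mem_coe.2 hx) (Finset.mem_coe.2 hy) hne

theorem t_MULTI : S_BASIC → S_MULTI := by
  intro hbasic n hn K hK D hD hD1 hCS m s hs hsep B hB
  obtain ⟨_, hV, hVtop, hopen, hbdd, hvol, _, hmono, hdisj, _, _⟩ := hbasic n K hK
  obtain ⟨P, F, h1, h2, h3, h4, h5⟩ := h431_greedy hn hopen hmono hdisj hCS s B m hs hsep hB
  refine ⟨P, h1, h5, ?_⟩
  have hn0 : (0 : ℝ) < n := by exact_mod_cast hn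
  set V : ℝ := (volume K).toReal with hVdef
  have hV0 : 0 ≤ V := hV.le
  -- the volume of the union
  have hcov : (⋃ i ∈ Finset.range m, B i) ⊆ (⋃ i ∈ Finset.range m, F i) ∪
      ⋃ l ∈ Finset.range m, ⋃ x ∈ P l, copy K x (s l * (1 + 1 / (n : ℝ))) := by
    refine iUnion₂_subset fun i hi => (h4 i (Finset.mem_range.1 hi)).trans ?_
    exact union_subset_union_left _ (subset_biUnion_of_mem (u := fun i => F i) hi)
  have hFfin : ∀ i ∈ Finset.range m, volume (F i) ≠ ⊤ := fun i hi =>
    (h2 i (Finset.mem_range.1 hi)).measure_ne_top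
  have hcopyval : ∀ l ∈ Finset.range m, ∀ x ∈ P l,
      (volume (copy K x (s l * (1 + 1 / (n : ℝ))))) =
        ENNReal.ofReal ((s l * (1 + 1 / (n : ℝ))) ^ n * V) := by
    intro l hl x _
    have := hs l (Finset.mem_range.1 hl)
    exact hvol _ _ (by positivity)
  have hle : volume (⋃ i ∈ Finset.range m, B i) ≤ ∑ i ∈ Finset.range m, volume (F i) +
      ∑ l ∈ Finset.range m, ENNReal.ofReal (((P l).card : ℝ) *
        ((s l * (1 + 1 / (n : ℝ))) ^ n * V)) := by
    refine (measure_mono hcov).trans ((measure_union_le _ _).trans (add_le_add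
      (measure_biUnion_finset_le _ _) ((measure_biUnion_finset_le _ _).trans
        (Finset.sum_le_sum fun l hl => ?_))))
    refine (measure_biUnion_finset_le _ _).trans ?_
    rw [Finset.sum_congr rfl (hcopyval l hl), Finset.sum_const, nsmul_eq_mul,
      ENNReal.ofReal_mul (Nat.cast_nonneg _), ENNReal.ofReal_natCast]
  have hsum1 : ∑ i ∈ Finset.range m, volume (F i) ≠ ⊤ :=
    ENNReal.sum_ne_top.2 hFfin
  have hsum2 : ∑ l ∈ Finset.range m, ENNReal.ofReal (((P l).card : ℝ) *
        ((s l * (1 + 1 / (n : ℝ))) ^ n * V)) ≠ ⊤ :=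
    ENNReal.sum_ne_top.2 fun l _ => ENNReal.ofReal_ne_top
  have hreal : (volume (⋃ i ∈ Finset.range m, B i)).toReal ≤
      ∑ i ∈ Finset.range m, (volume (F i)).toReal +
      ∑ l ∈ Finset.range m, ((P l).card : ℝ) * ((s l * (1 + 1 / (n : ℝ))) ^ n * V) := by
    have h := ENNReal.toReal_mono (ENNReal.add_ne_top.2 ⟨hsum1, hsum2⟩) hle
    rw [ENNReal.toReal_add hsum1 hsum2, ENNReal.toReal_sum hFfin,
      ENNReal.toReal_sum (fun l _ => ENNReal.ofReal_ne_top)] at h
    refine h.trans (le_of_eq ?_)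
    congr 1
    refine Finset.sum_congr rfl fun l hl => ENNReal.toReal_ofReal ?_
    have := hs l (Finset.mem_range.1 hl)
    positivity
  -- `(1+1/n)^n ≤ e`
  have he : (1 + 1 / (n : ℝ)) ^ n ≤ Real.exp 1 := by
    have h := Real.add_one_le_exp (1 / (n : ℝ))
    calc (1 + 1 / (n : ℝ)) ^ n ≤ (Real.exp (1 / (n : ℝ))) ^ n := by
          apply pow_le_pow_left₀ (by positivity)
          linarith
      _ = Real.exp 1 := by
          rw [← Real.exp_nat_mul]
          congr 1
          field_simp
  have hterm1 : ∑ i ∈ Finset.range m, D * (volume (F i)).toReal ≤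
      ∑ i ∈ Finset.range m, ((P i).card : ℝ) * ((s i) ^ n * V) :=
    Finset.sum_le_sum fun i hi => h3 i (Finset.mem_range.1 hi)
  have hterm2 : D * ∑ l ∈ Finset.range m, ((P l).card : ℝ) *
      ((s l * (1 + 1 / (n : ℝ))) ^ n * V) ≤
      Real.exp 1 * ∑ i ∈ Finset.range m, ((P i).card : ℝ) * ((s i) ^ n * V) := by
    have h0 : 0 ≤ ∑ l ∈ Finset.range m, ((P l).card : ℝ) *
      ((s l * (1 + 1 / (n : ℝ))) ^ n * V) := by
      refine Finset.sum_nonneg fun l hl => ?_
      have := hs l (Finset.mem_range.1 hl)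
      positivity
    calc D * ∑ l ∈ Finset.range m, ((P l).card : ℝ) * ((s l * (1 + 1 / (n : ℝ))) ^ n * V)
        ≤ 1 * ∑ l ∈ Finset.range m, ((P l).card : ℝ) * ((s l * (1 + 1 / (n : ℝ))) ^ n * V) :=
          mul_le_mul_of_nonneg_right hD1 h0
      _ = ∑ l ∈ Finset.range m, ((P l).card : ℝ) * ((s l * (1 + 1 / (n : ℝ))) ^ n * V) :=
          one_mul _
      _ ≤ ∑ l ∈ Finset.range m, Real.exp 1 * (((P l).card : ℝ) * ((s l) ^ n * V)) := by
          refine Finset.sum_le_sum fun l hl => ?_
          have := hs l (Finset.mem_range.1 hl)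
          rw [mul_pow]
          have h' : 0 ≤ ((P l).card : ℝ) * ((s l) ^ n * V) := by positivity
          calc ((P l).card : ℝ) * ((s l) ^ n * (1 + 1 / (n : ℝ)) ^ n * V)
              = (1 + 1 / (n : ℝ)) ^ n * (((P l).card : ℝ) * ((s l) ^ n * V)) := by ring
            _ ≤ Real.exp 1 * (((P l).card : ℝ) * ((s l) ^ n * V)) :=
              mul_le_mul_of_nonneg_right he h'
      _ = _ := by rw [Finset.mul_sum]
  calc D * (volume (⋃ i ∈ Finset.range m, B i)).toReal
      ≤ D * (∑ i ∈ Finset.range m, (volume (F i)).toReal +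
          ∑ l ∈ Finset.range m, ((P l).card : ℝ) * ((s l * (1 + 1 / (n : ℝ))) ^ n * V)) :=
        mul_le_mul_of_nonneg_left hreal hD.le
    _ = ∑ i ∈ Finset.range m, D * (volume (F i)).toReal +
          D * ∑ l ∈ Finset.range m, ((P l).card : ℝ) * ((s l * (1 + 1 / (n : ℝ))) ^ n * V) := by
        rw [mul_add, Finset.mul_sum]
    _ ≤ ∑ i ∈ Finset.range m, ((P i).card : ℝ) * ((s i) ^ n * V) +
          Real.exp 1 * ∑ i ∈ Finset.range m, ((P i).card : ℝ) * ((s i) ^ n * V) :=
        add_le_add hterm1 hterm2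
    _ = (1 + Real.exp 1) * ∑ i ∈ Finset.range m, ((P i).card : ℝ) * ((s i) ^ n * V) := by ring

end Pool.Agent.H748R2.DC
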