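import Pool.Agent.H748R2.DC.Spec

namespace Pool.Agent.H748R2.DC

open MeasureTheory Set
open scoped ENNReal

theorem h409_box_vol (n : ℕ) (a b : ℝ) :
    volume {y : E n | ∀ i, a ≤ y i ∧ y i ≤ b} = ENNReal.ofReal (b - a) ^ n := by
  have h1 : {y : E n | ∀ i, a ≤ y i ∧ y i ≤ b} =
      (fun y : E n => (WithLp.ofLp y : Fin n → ℝ)) ⁻¹' (Icc (fun _ => a) (fun _ => b)) := by
    ext y
    simp only [mem_setOf_eq, mem_preimage, mem_Icc, Pi.le_def]
    exact forall_and
  rw [h1, (PiLp.volume_preserving_ofLp (Fin n)).measure_preimage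
    measurableSet_Icc.nullMeasurableSet, Real.volume_Icc_pi]
  simp

theorem h409_abs_le {n : ℕ} (x : E n) (i : Fin n) : |x i| ≤ ‖x‖ := by
  have h := PiLp.norm_apply_le x i
  rwa [Real.norm_eq_abs] at h

theorem t_ONE (hb : S_BASIC) : S_ONE := by
  intro n _ K hK d hd
  obtain ⟨_, hv, hvt, hopen, _, hvol, _, _, _, _, _⟩ := hb n K hK
  by_contra hlt
  push Not at hlt
  obtain ⟨ρ, hρ0, hρ⟩ := hK.bdd.exists_pos_norm_le
  -- the bound for one `R`
  have key : ∀ R : ℝ, 1 ≤ R → (∃ P : Finset (E n), (∀ p ∈ P, p ∈ box n R) ∧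
      (P : Set (E n)).PairwiseDisjoint (fun p => copy K p 1) ∧
      d * R ^ n ≤ (P.card : ℝ) * (volume K).toReal) → d ≤ (1 + 2 * ρ / R) ^ n := by
    rintro R hR ⟨P, hP, hdis, hle⟩
    have h1 : volume (⋃ p ∈ P, copy K p 1) = ∑ p ∈ P, volume (copy K p 1) :=
      measure_biUnion_finset hdis (fun p _ => (hopen p 1 one_pos).measurableSet)
    have h2 : ∑ p ∈ P, volume (copy K p 1) = (P.card : ℝ≥0∞) * volume K := by
      rw [Finset.sum_congr rfl (fun p _ => hvol p 1 one_pos)]
      rw [one_pow, one_mul, ENNReal.ofReal_toReal hvt]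
      simp
    have h3 : (⋃ p ∈ P, copy K p 1) ⊆ {y : E n | ∀ i, -ρ ≤ y i ∧ y i ≤ R + ρ} := by
      intro y hy
      simp only [mem_iUnion] at hy
      obtain ⟨p, hp, k, hk, rfl⟩ := hy
      intro i
      have h4 := (h409_abs_le k i).trans (hρ k hk)
      have h5 := hP p hp i
      have h6 := abs_le.1 h4
      have h7 : (p + (1 : ℝ) • k) i = p i + k i := by simp
      rw [h7]
      constructor <;> linarith [h5.1, h5.2, h6.1, h6.2]
    have h4 : (P.card : ℝ≥0∞) * volume K ≤ ENNReal.ofReal (R + 2 * ρ) ^ n := by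
      rw [← h2, ← h1]
      refine (measure_mono h3).trans ?_
      rw [h409_box_vol]
      have : R + ρ - -ρ = R + 2 * ρ := by ring
      rw [this]
    have h5 : (P.card : ℝ) * (volume K).toReal ≤ (R + 2 * ρ) ^ n := by
      have h6 := ENNReal.toReal_mono (by simp) h4
      rw [ENNReal.toReal_mul, ENNReal.toReal_natCast, ENNReal.toReal_pow,
        ENNReal.toReal_ofReal (by positivity)] at h6
      exact h6
    have hR0 : (0 : ℝ) < R := by linarith
    have h6 : d * R ^ n ≤ (1 + 2 * ρ / R) ^ n * R ^ n := by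
      rw [← mul_pow]
      have : (1 + 2 * ρ / R) * R = R + 2 * ρ := by field_simp
      rw [this]
      exact hle.trans h5
    exact le_of_mul_le_mul_right h6 (by positivity)
  have hlim : Filter.Tendsto (fun R : ℝ => (1 + 2 * ρ / R) ^ n) Filter.atTop (nhds 1) := by
    have h1 : Filter.Tendsto (fun R : ℝ => 2 * ρ / R) Filter.atTop (nhds 0) :=
      tendsto_const_nhds.div_atTop Filter.tendsto_id
    have h2 := (tendsto_const_nhds (x := (1 : ℝ))).add h1
    have h3 := h2.pow n
    simpa using h3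
  have hev := hlim.eventually (gt_mem_nhds hlt)
  obtain ⟨R1, hR1⟩ := Filter.eventually_atTop.1 hev
  obtain ⟨R, hR, hex⟩ := hd (max R1 1)
  have h1 := key R ((le_max_right _ _).trans hR) hex
  have h2 := hR1 R ((le_max_left _ _).trans hR)
  linarith

end Pool.Agent.H748R2.DC
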