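import Pool.Agent.H748R2.DC.Spec

set_option autoImplicit false

namespace Pool.Agent.H748R2.DC

open MeasureTheory Set Filter Topology
open scoped ENNReal

/-- sums of the lengths of disjoint intervals ending before `p` -/
def h675_F (A : Set ℝ) (δ : ℝ → ℝ) (p : ℝ) : Set ℝ :=
  {s | ∃ S : Finset ℝ, (∀ x ∈ S, x ∈ A) ∧
    (S : Set ℝ).PairwiseDisjoint (fun x => Ioo (x - δ x) (x + δ x)) ∧
    (∀ x ∈ S, x + δ x ≤ p) ∧ s = ∑ x ∈ S, 2 * δ x}

/-- the supremum of these sums -/
noncomputable def h675_G (A : Set ℝ) (δ : ℝ → ℝ) (p : ℝ) : ℝ := sSup (h675_F A δ p)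

section

variable {A : Set ℝ} {δ : ℝ → ℝ} {W M : ℝ}

theorem h675_bdd (hno : ∀ S : Finset ℝ, (∀ x ∈ S, x ∈ A) →
    (S : Set ℝ).PairwiseDisjoint (fun x => Ioo (x - δ x) (x + δ x)) → ∑ x ∈ S, 2 * δ x ≤ W)
    (p : ℝ) : BddAbove (h675_F A δ p) := by
  refine ⟨W, ?_⟩
  rintro s ⟨S, h1, h2, -, rfl⟩
  exact hno S h1 h2

theorem h675_zero_mem (p : ℝ) : (0 : ℝ) ∈ h675_F A δ p :=
  ⟨∅, by simp, by simp, by simp, by simp⟩

theorem h675_le (hno : ∀ S : Finset ℝ, (∀ x ∈ S, x ∈ A) →
    (S : Set ℝ).PairwiseDisjoint (fun x => Ioo (x - δ x) (x + δ x)) → ∑ x ∈ S, 2 * δ x ≤ W)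
    (p : ℝ) : h675_G A δ p ≤ W := by
  refine csSup_le ⟨0, h675_zero_mem p⟩ ?_
  rintro s ⟨S, h1, h2, -, rfl⟩
  exact hno S h1 h2

theorem h675_mono (hno : ∀ S : Finset ℝ, (∀ x ∈ S, x ∈ A) →
    (S : Set ℝ).PairwiseDisjoint (fun x => Ioo (x - δ x) (x + δ x)) → ∑ x ∈ S, 2 * δ x ≤ W) :
    Monotone (h675_G A δ) := by
  intro p q hpq
  refine csSup_le_csSup (h675_bdd hno q) ⟨0, h675_zero_mem p⟩ ?_
  rintro s ⟨S, h1, h2, h3, rfl⟩
  exact ⟨S, h1, h2, fun x hx => (h3 x hx).trans hpq, rfl⟩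

theorem h675_low (hδ : ∀ x ∈ A, 0 < δ x) (hM : ∀ x ∈ A, -M ≤ x ∧ x ≤ M) {p : ℝ} (hp : p ≤ -M) :
    h675_G A δ p = 0 := by
  have : h675_F A δ p = {0} := by
    ext s
    constructor
    · rintro ⟨S, h1, h2, h3, rfl⟩
      have hS : S = ∅ := by
        rw [Finset.eq_empty_iff_forall_notMem]
        intro x hx
        have h4 := h3 x hx
        have h5 := hδ x (h1 x hx)
        have h6 := (hM x (h1 x hx)).1
        linarith
      simp [hS]
    · rintro rfl
      exact h675_zero_mem p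
  unfold h675_G
  rw [this, csSup_singleton]

theorem h675_high (hW : ∀ x ∈ A, δ x ≤ W) (hM : ∀ x ∈ A, -M ≤ x ∧ x ≤ M) {p : ℝ}
    (hp : M + W ≤ p) : h675_G A δ p = h675_G A δ (M + W) := by
  have : h675_F A δ p = h675_F A δ (M + W) := by
    ext s
    constructor
    · rintro ⟨S, h1, h2, h3, rfl⟩
      refine ⟨S, h1, h2, fun x hx => ?_, rfl⟩
      have := hW x (h1 x hx)
      have := (hM x (h1 x hx)).2
      linarith
    · rintro ⟨S, h1, h2, h3, rfl⟩
      exact ⟨S, h1, h2, fun x hx => (h3 x hx).trans hp, rfl⟩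
  unfold h675_G
  rw [this]

theorem h675_step (hδ : ∀ x ∈ A, 0 < δ x) (hno : ∀ S : Finset ℝ, (∀ x ∈ S, x ∈ A) →
    (S : Set ℝ).PairwiseDisjoint (fun x => Ioo (x - δ x) (x + δ x)) → ∑ x ∈ S, 2 * δ x ≤ W)
    {x : ℝ} (hx : x ∈ A) : h675_G A δ (x - δ x) + 2 * δ x ≤ h675_G A δ (x + δ x) := by
  classical
  have hdx := hδ x hx
  have h : h675_G A δ (x - δ x) ≤ h675_G A δ (x + δ x) - 2 * δ x := by
    refine csSup_le ⟨0, h675_zero_mem _⟩ ?_
    rintro s ⟨S, h1, h2, h3, rfl⟩
    have hxS : x ∉ S := by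
      intro hxS
      have := h3 x hxS
      linarith
    have h4 : ∑ y ∈ insert x S, 2 * δ y ≤ h675_G A δ (x + δ x) := by
      refine le_csSup (h675_bdd hno _) ⟨insert x S, ?_, ?_, ?_, rfl⟩
      · intro y hy
        rcases Finset.mem_insert.mp hy with rfl | hy
        · exact hx
        · exact h1 y hy
      · rw [Finset.coe_insert]
        refine h2.insert ?_
        intro y hy _
        rw [Set.disjoint_left]
        rintro z ⟨hz1, hz2⟩ ⟨hz3, hz4⟩
        have := h3 y hy
        linarith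
      · intro y hy
        rcases Finset.mem_insert.mp hy with rfl | hy
        · exact le_refl _
        · have := h3 y hy
          linarith
    rw [Finset.sum_insert hxS] at h4
    linarith
  linarith

end

theorem t_ONEDIMR : S_ONEDIMR := by
  intro A0 hA0 hweak c hc0 hc A hA δ hδ
  by_contra hcon
  push Not at hcon
  have hvfin : volume A ≠ ⊤ := hA.measure_lt_top.ne
  set v : ℝ := (volume A).toReal with hv
  have hvA : volume A = ENNReal.ofReal v := (ENNReal.ofReal_toReal hvfin).symm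
  have hempty := hcon ∅ (empty_subset _) countable_empty (pairwiseDisjoint_empty)
  have hv0 : 0 < v := by
    rcases (ENNReal.toReal_nonneg (a := volume A)).eq_or_lt with h | h
    · exfalso
      have hv00 : v = 0 := h.symm
      rw [hvA, hv00] at hempty
      simp at hempty
    · exact h
  have hcpos : 0 < c := by
    rcases hc0.eq_or_lt with h | h
    · exfalso
      rw [← h] at hempty
      simp at hempty
    · exact h
  set W : ℝ := c * v with hW
  have hW0 : 0 < W := mul_pos hcpos hv0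
  have hcvW : ENNReal.ofReal c * volume A = ENNReal.ofReal W := by
    rw [hvA, hW, ENNReal.ofReal_mul hc0]
  -- finite families are small
  have hno : ∀ S : Finset ℝ, (∀ x ∈ S, x ∈ A) →
      (S : Set ℝ).PairwiseDisjoint (fun x => Ioo (x - δ x) (x + δ x)) →
      ∑ x ∈ S, 2 * δ x ≤ W := by
    intro S h1 h2
    have h3 := hcon (S : Set ℝ) h1 S.countable_toSet h2
    by_contra h4
    push Not at h4
    have h5 : ∑' x : (S : Set ℝ), volume (Ioo ((x : ℝ) - δ x) (x + δ x)) =
        ENNReal.ofReal (∑ x ∈ S, 2 * δ x) := by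
      rw [Finset.tsum_subtype' S (fun x => volume (Ioo (x - δ x) (x + δ x))),
        ENNReal.ofReal_sum_of_nonneg (fun x hx => by have := hδ x (h1 x hx); positivity)]
      refine Finset.sum_congr rfl fun x _ => ?_
      rw [Real.volume_Ioo]
      congr 1
      ring
    rw [h5, hcvW, ENNReal.ofReal_lt_ofReal_iff hW0] at h3
    linarith
  have hδW : ∀ x ∈ A, δ x ≤ W := by
    intro x hx
    have h := hno {x} (by simpa using hx) (by simp)
    rw [Finset.sum_singleton] at h
    have := hδ x hx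
    linarith
  obtain ⟨M, hM⟩ : ∃ M : ℝ, ∀ x ∈ A, -M ≤ x ∧ x ≤ M := by
    obtain ⟨M, hM⟩ := hA.isBounded.exists_norm_le
    exact ⟨M, fun x hx => abs_le.mp (hM x hx)⟩
  -- the measure
  have hmono := h675_mono hno
  have hG0 : ∀ p, 0 ≤ h675_G A δ p := fun p => le_csSup (h675_bdd hno p) (h675_zero_mem p)
  set g := hmono.stieltjesFunction with hg
  have hgval : ∀ y, g y = Function.rightLim (h675_G A δ) y := fun y => rfl
  have hbot : Tendsto g atBot (𝓝 0) := by
    refine tendsto_const_nhds.congr' ?_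
    filter_upwards [eventually_lt_atBot (-M)] with y hy
    rw [hgval]
    apply le_antisymm
    · refine le_trans ?_ (hmono.le_rightLim (le_refl y))
      exact hG0 y
    · refine (hmono.rightLim_le hy).trans ?_
      rw [h675_low hδ hM (le_refl _)]
  have htop : Tendsto g atTop (𝓝 (h675_G A δ (M + W))) := by
    refine tendsto_const_nhds.congr' ?_
    filter_upwards [eventually_ge_atTop (M + W)] with y hy
    rw [hgval]
    apply le_antisymm
    · refine le_trans ?_ (hmono.le_rightLim (le_refl y))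
      exact hmono hy
    · refine (hmono.rightLim_le (lt_add_one y)).trans ?_
      rw [h675_high hδW hM (by linarith)]
  have huniv : g.measure univ = ENNReal.ofReal (h675_G A δ (M + W) - 0) :=
    g.measure_univ hbot htop
  -- choice of the dilation factor
  have hκ : A0 * c < 1 := by
    rw [lt_div_iff₀ hA0] at hc
    linarith
  have hκ0 : 0 < A0 * c := mul_pos hA0 hcpos
  obtain ⟨ε, hε0, hε1, hε⟩ : ∃ ε : ℝ, 0 < ε ∧ ε ≤ 1 ∧ A0 * c * (1 + ε) ^ 2 < 1 := by
    refine ⟨(1 - A0 * c) / 4, by linarith, by linarith, ?_⟩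
    set κ := A0 * c
    have h1 : (1 + (1 - κ) / 4) ^ 2 ≤ 1 + 3 * ((1 - κ) / 4) := by nlinarith
    nlinarith
  have hfin : IsFiniteMeasure (ENNReal.ofReal ((1 + ε) ^ 2) • g.measure) := by
    refine ⟨?_⟩
    rw [Measure.smul_apply, huniv, smul_eq_mul]
    exact ENNReal.mul_lt_top ENNReal.ofReal_lt_top ENNReal.ofReal_lt_top
  have hw := hweak (ENNReal.ofReal ((1 + ε) ^ 2) • g.measure) hfin
  have hsub : A ⊆ {x : ℝ | ∃ r : ℝ, 0 < r ∧ volume (Ioo (x - r) (x + r)) <
      (ENNReal.ofReal ((1 + ε) ^ 2) • g.measure) (Ioo (x - r) (x + r))} := by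
    intro x hx
    have hdx := hδ x hx
    refine ⟨(1 + ε) * δ x, by positivity, ?_⟩
    rw [Measure.smul_apply, smul_eq_mul, Real.volume_Ioo, StieltjesFunction.measure_Ioo]
    have h1 : h675_G A δ (x + δ x) ≤ Function.leftLim g (x + (1 + ε) * δ x) := by
      refine (hmono.le_rightLim (le_refl _)).trans ?_
      rw [← hgval]
      exact g.mono.le_leftLim (by nlinarith)
    have h2 : g (x - (1 + ε) * δ x) ≤ h675_G A δ (x - δ x) := by
      rw [hgval]
      exact hmono.rightLim_le (by nlinarith)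
    have h3 := h675_step hδ hno hx
    rw [← ENNReal.ofReal_mul (by positivity)]
    rw [ENNReal.ofReal_lt_ofReal_iff_of_nonneg (by nlinarith)]
    have h4 : 2 * δ x ≤ Function.leftLim g (x + (1 + ε) * δ x) - g (x - (1 + ε) * δ x) := by
      linarith
    calc x + (1 + ε) * δ x - (x - (1 + ε) * δ x) = (1 + ε) * (2 * δ x) := by ring
      _ < (1 + ε) ^ 2 * (2 * δ x) := by nlinarith [mul_pos hε0 hdx]
      _ ≤ (1 + ε) ^ 2 *
          (Function.leftLim g (x + (1 + ε) * δ x) - g (x - (1 + ε) * δ x)) := by gcongr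
  have hfinal : volume A ≤ ENNReal.ofReal (A0 * ((1 + ε) ^ 2 * W)) := by
    refine (measure_mono hsub).trans (hw.trans ?_)
    rw [Measure.smul_apply, smul_eq_mul, huniv, ENNReal.ofReal_mul hA0.le,
      ENNReal.ofReal_mul (by positivity)]
    gcongr
    rw [sub_zero]
    exact h675_le hno _
  rw [hvA, ENNReal.ofReal_le_ofReal_iff (by positivity)] at hfinal
  have : A0 * ((1 + ε) ^ 2 * W) = (A0 * c * (1 + ε) ^ 2) * v := by rw [hW]; ring
  rw [this] at hfinal
  nlinarith

end Pool.Agent.H748R2.DC
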