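import Pool.Agent.H748R2.DC.Spec

namespace Pool.Agent.H748R2.DC

open MeasureTheory Set
open scoped ENNReal

/-- the measurable equivalence -/
noncomputable def h953e : E 1 ≃ᵐ ℝ :=
  (MeasurableEquiv.toLp 2 (Fin 1 → ℝ)).symm.trans (MeasurableEquiv.funUnique (Fin 1) ℝ)

lemma h953e_apply (x : E 1) : h953e x = x 0 := rfl

lemma h953e_mp : MeasurePreserving h953e volume volume :=
  (EuclideanSpace.volume_preserving_symm_measurableEquiv_toLp (Fin 1)).trans
    (volume_preserving_funUnique (Fin 1) ℝ)

lemma h953e_symm (r : ℝ) : (h953e.symm r) 0 = r := by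
  rw [← h953e_apply, MeasurableEquiv.apply_symm_apply]

lemma h953_ext {x y : E 1} (h : x 0 = y 0) : x = y := by
  ext i
  rw [Subsingleton.elim i 0]
  exact h

lemma h953_copy (x : E 1) (t : ℝ) (ht : 0 < t) :
    copy (Q 1) x t = h953e ⁻¹' (Ioo (h953e x - t) (h953e x + t)) := by
  ext y
  simp only [copy, mem_setOf_eq, mem_preimage, mem_Ioo, h953e_apply]
  constructor
  · rintro ⟨k, hk, rfl⟩
    have h1 : |k 0| < 1 := hk 0
    rw [abs_lt] at h1
    have h2 : (x + t • k) 0 = x 0 + t * k 0 := by simp
    rw [h2]
    constructor <;> nlinarith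
  · rintro ⟨h1, h2⟩
    refine ⟨t⁻¹ • (y - x), ?_, ?_⟩
    · intro i
      rw [Subsingleton.elim i 0]
      have h3 : (t⁻¹ • (y - x)) 0 = t⁻¹ * (y 0 - x 0) := by simp
      rw [h3, abs_mul, abs_inv, abs_of_pos ht, inv_mul_lt_iff₀ ht, abs_lt]
      constructor <;> linarith
    · rw [smul_smul, mul_inv_cancel₀ ht.ne', one_smul]
      abel

theorem t_TRANS : S_TRANS := by
  constructor
  · intro c hc A hA δ hδ
    have hcont : Continuous (fun x : E 1 => x 0) := by fun_prop
    have hA' : IsCompact (h953e '' A) := hA.image hcont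
    obtain ⟨S, hSA, hSc, hSd, hSv⟩ := hc (h953e '' A) hA' (fun r => δ (h953e.symm r)) (by
      rintro _ ⟨x, hx, rfl⟩
      simp only [MeasurableEquiv.symm_apply_apply]
      exact hδ x hx)
    have hpos : ∀ x ∈ h953e ⁻¹' S, 0 < δ x := by
      intro x hx
      obtain ⟨y, hy, hyx⟩ := hSA hx
      have : y = x := h953e.injective hyx
      rw [← this]
      exact hδ y hy
    refine ⟨h953e ⁻¹' S, ?_, ?_, ?_, ?_⟩
    · intro x hx
      obtain ⟨y, hy, hyx⟩ := hSA hx
      have : y = x := h953e.injective hyx
      rw [← this]
      exact hy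
    · exact hSc.preimage_of_injOn (h953e.injective.injOn)
    · intro x hx y hy hxy
      have hx' := hpos x hx
      have hy' := hpos y hy
      have h1 := hSd hx hy (fun h => hxy (h953e.injective h))
      simp only [Function.onFun, MeasurableEquiv.symm_apply_apply] at h1 ⊢
      rw [h953_copy x _ hx', h953_copy y _ hy']
      exact h1.preimage h953e
    · have hvol : volume A = volume (h953e '' A) := by
        rw [← h953e_mp.measure_preimage_equiv, preimage_image_eq _ h953e.injective]
      rw [hvol]
      refine hSv.trans (le_of_eq ?_)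
      let ε : (h953e ⁻¹' S : Set (E 1)) ≃ S :=
        { toFun := fun x => ⟨h953e x.1, x.2⟩
          invFun := fun r => ⟨h953e.symm r.1, by
            rw [mem_preimage, MeasurableEquiv.apply_symm_apply]
            exact r.2⟩
          left_inv := fun x => by
            apply Subtype.ext
            simp
          right_inv := fun r => by
            apply Subtype.ext
            simp }
      rw [← Equiv.tsum_eq ε]
      apply tsum_congr
      intro x
      have hx' := hpos x.1 x.2
      have h1 : ((ε x : S) : ℝ) = h953e x.1 := rfl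
      rw [h1, h953_copy x.1 _ hx', h953e_mp.measure_preimage_equiv]
      simp only [MeasurableEquiv.symm_apply_apply]
  · intro A hA μ hμ
    have hfin : IsFiniteMeasure (μ.map h953e.symm) := by infer_instance
    have h1 := hA (μ.map h953e.symm) hfin
    have h2 : (μ.map h953e.symm) univ = μ univ := by
      rw [MeasurableEquiv.map_apply, preimage_univ]
    rw [h2] at h1
    refine le_trans (le_of_eq ?_) h1
    rw [← h953e_mp.measure_preimage_equiv]
    congr 1
    ext x
    simp only [mem_preimage, mem_setOf_eq]
    constructor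
    · rintro ⟨r, hr, h3⟩
      refine ⟨r, hr, ?_⟩
      rw [h953_copy x r hr, h953e_mp.measure_preimage_equiv, MeasurableEquiv.map_apply]
      rw [← preimage_comp]
      have : (h953e ∘ h953e.symm : ℝ → ℝ) = id := by
        funext r
        simp
      rw [this, preimage_id]
      exact h3
    · rintro ⟨r, hr, h3⟩
      refine ⟨r, hr, ?_⟩
      rw [h953_copy x r hr, h953e_mp.measure_preimage_equiv, MeasurableEquiv.map_apply] at h3
      rw [← preimage_comp] at h3
      have : (h953e ∘ h953e.symm : ℝ → ℝ) = id := by
        funext r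
        simp
      rw [this, preimage_id] at h3
      exact h3

end Pool.Agent.H748R2.DC
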