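import Pool.Agent.H748R2.DC.Spec

set_option autoImplicit false

namespace Pool.Agent.H748R2.DC

open MeasureTheory Set
open scoped ENNReal Pointwise

/-- the box is the preimage of a product of intervals -/
theorem s841_box_eq (n : ℕ) (R : ℝ) :
    box n R = (@WithLp.ofLp 2 (Fin n → ℝ)) ⁻¹' (Icc (fun _ => (0 : ℝ)) (fun _ => R)) := by
  ext x
  simp only [box, mem_setOf_eq, mem_preimage, mem_Icc, Pi.le_def]
  exact ⟨fun h => ⟨fun i => (h i).1, fun i => (h i).2⟩, fun h i => ⟨h.1 i, h.2 i⟩⟩

theorem s841_box_vol (n : ℕ) (R : ℝ) (hR : 0 ≤ R) :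
    volume (box n R) = ENNReal.ofReal (R ^ n) := by
  rw [s841_box_eq, (PiLp.volume_preserving_ofLp (Fin n)).measure_preimage
    measurableSet_Icc.nullMeasurableSet, Real.volume_Icc_pi]
  simp only [sub_zero, Finset.prod_const, Finset.card_univ, Fintype.card_fin]
  rw [ENNReal.ofReal_pow hR]

theorem s841_box_compact (n : ℕ) (R : ℝ) : IsCompact (box n R) := by
  have h1 : IsCompact (Icc (fun _ : Fin n => (0 : ℝ)) (fun _ => R)) := isCompact_Icc
  have h2 : box n R = (EuclideanSpace.equiv (Fin n) ℝ).symm '' (Icc (fun _ => (0 : ℝ)) (fun _ => R)) := by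
    rw [s841_box_eq]
    ext x
    constructor
    · intro hx
      exact ⟨WithLp.ofLp x, hx, rfl⟩
    · rintro ⟨y, hy, rfl⟩
      exact hy
  rw [h2]
  exact h1.image (EuclideanSpace.equiv (Fin n) ℝ).symm.continuous

theorem t_UP : S_BASIC → S_UP := by
  intro hB n hn K hK c hc hG R0
  obtain ⟨-, hpos, htop, hopen, hbdd, hvol, -⟩ := hB n K hK
  refine ⟨max R0 1, le_max_left _ _, ?_⟩
  set R : ℝ := max R0 1 with hRdef
  have hR : 0 ≤ R := le_trans zero_le_one (le_max_right _ _)
  obtain ⟨S, hSA, hSc, hSd, hSv⟩ := hG (box n R) (s841_box_compact n R) (fun _ => 1)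
    (fun _ _ => one_pos)
  have hv : ∀ x : E n, volume (copy K x 1) = ENNReal.ofReal ((volume K).toReal) := by
    intro x
    rw [hvol x 1 one_pos, one_pow, one_mul]
  -- the union is bounded
  have hsub : (⋃ x ∈ S, copy K x 1) ⊆ box n R + K := by
    intro y hy
    simp only [mem_iUnion, copy, mem_setOf_eq] at hy
    obtain ⟨x, hx, k, hk, rfl⟩ := hy
    exact ⟨x, hSA hx, k, hk, by simp⟩
  have hfinvol : volume (⋃ x ∈ S, copy K x 1) < ⊤ :=
    lt_of_le_of_lt (measure_mono hsub)
      ((s841_box_compact n R).isBounded.add hK.bdd).measure_lt_top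
  have hun : volume (⋃ x ∈ S, copy K x 1) = ∑' x : S, volume (copy K (x : E n) 1) :=
    measure_biUnion hSc hSd (fun x _ => (hopen x 1 one_pos).measurableSet)
  have hSfin : S.Finite := by
    by_contra hinf
    haveI : Infinite S := Set.infinite_coe_iff.2 hinf
    rw [hun] at hfinvol
    simp only [hv] at hfinvol
    rw [ENNReal.tsum_const_eq_top_of_ne_zero (by
      simpa using hpos)] at hfinvol
    exact lt_irrefl _ hfinvol
  refine ⟨hSfin.toFinset, ?_, ?_, ?_⟩
  · intro p hp
    exact hSA (by simpa using hp)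
  · simpa using hSd
  · haveI := hSfin.fintype
    have h1 : ENNReal.ofReal c * ENNReal.ofReal (R ^ n) ≤
        ((hSfin.toFinset.card : ℕ) : ℝ≥0∞) * ENNReal.ofReal ((volume K).toReal) := by
      have h2 := hSv
      rw [s841_box_vol n R hR] at h2
      simp only [hv] at h2
      rw [tsum_fintype, Finset.sum_const, nsmul_eq_mul, Finset.card_univ] at h2
      have h3 : Fintype.card S = hSfin.toFinset.card := by
        rw [← Set.toFinset_card, Set.Finite.toFinset_eq_toFinset]
      rwa [h3] at h2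
    rw [← ENNReal.ofReal_mul hc, ← ENNReal.ofReal_natCast,
      ← ENNReal.ofReal_mul (Nat.cast_nonneg _)] at h1
    exact (ENNReal.ofReal_le_ofReal_iff (by positivity)).1 h1

end Pool.Agent.H748R2.DC
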