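import Pool.Agent.H748R2.DC.Spec

namespace Pool.Agent.H748R2.DC

open MeasureTheory Set Filter Topology
open scoped ENNReal

theorem h56_symm {n : ℕ} {K : Set (E n)} (hK : IsBody K) {x y : E n} {s : ℝ}
    (h : y ∈ copy K x s) : x ∈ copy K y s := by
  obtain ⟨k, hk, rfl⟩ := h
  refine ⟨-k, hK.symm k hk, ?_⟩
  rw [smul_neg]
  abel

theorem h56_exh {n : ℕ} {K : Set (E n)} (hK : IsBody K) (x : E n) {r : ℝ} (hr : 0 < r)
    (y : E n) (hy : y ∈ copy K x r) :
    ∃ m : ℕ, y ∈ copy K x (r * ((m + 1 : ℝ) / (m + 2))) := by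
  obtain ⟨k, hk, rfl⟩ := hy
  have h1 : Tendsto (fun m : ℕ => (1 + 1 / ((m : ℝ) + 1)) • k) atTop (𝓝 ((1 + 0 : ℝ) • k)) :=
    ((tendsto_const_nhds.add tendsto_one_div_add_atTop_nhds_zero_nat)).smul_const k
  rw [add_zero, one_smul] at h1
  obtain ⟨m, hm⟩ := (h1.eventually (hK.isOpen.mem_nhds hk)).exists
  refine ⟨m, _, hm, ?_⟩
  rw [smul_smul]
  congr 2
  have h2 : (m : ℝ) + 1 ≠ 0 := by positivity
  have h3 : (m : ℝ) + 2 ≠ 0 := by positivity
  field_simp
  ring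

theorem h56_inner (hB : S_BASIC) {n : ℕ} {K : Set (E n)} (hK : IsBody K) (μ : Measure (E n))
    (x : E n) {r : ℝ} (hr : 0 < r) {a : ℝ≥0∞} (h : a < μ (copy K x r)) :
    ∃ t, 0 < t ∧ t < r ∧ a < μ (copy K x t) := by
  obtain ⟨-, -, -, -, -, -, -, hmono, -, -, -⟩ := hB n K hK
  have hpos : ∀ m : ℕ, 0 < r * ((m + 1 : ℝ) / (m + 2)) := fun m => by positivity
  have hle : ∀ m : ℕ, r * ((m + 1 : ℝ) / (m + 2)) < r := fun m => by
    have : ((m : ℝ) + 1) / (m + 2) < 1 := by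
      rw [div_lt_one (by positivity)]
      linarith
    nlinarith
  have hmon : Monotone fun m : ℕ => copy K x (r * ((m + 1 : ℝ) / (m + 2))) := by
    refine monotone_nat_of_le_succ fun m => ?_
    refine hmono x _ _ (hpos m) ?_
    refine mul_le_mul_of_nonneg_left ?_ hr.le
    push_cast
    rw [div_le_div_iff₀ (by positivity) (by positivity)]
    nlinarith
  have hU : copy K x r ⊆ ⋃ m : ℕ, copy K x (r * ((m + 1 : ℝ) / (m + 2))) := by
    intro y hy
    exact Set.mem_iUnion.mpr (h56_exh hK x hr y hy)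
  have h1 : a < ⨆ m : ℕ, μ (copy K x (r * ((m + 1 : ℝ) / (m + 2)))) := by
    rw [← hmon.measure_iUnion]
    exact lt_of_lt_of_le h (measure_mono hU)
  obtain ⟨m, hm⟩ := lt_iSup_iff.mp h1
  exact ⟨_, hpos m, hle m, hm⟩

theorem h56_open (hB : S_BASIC) {n : ℕ} {K : Set (E n)} (hK : IsBody K) (μ : Measure (E n)) :
    IsOpen {x | ∃ r : ℝ, 0 < r ∧ volume (copy K x r) < μ (copy K x r)} := by
  obtain ⟨-, -, -, hop, -, hvol, hself, -, -, -, hpert⟩ := hB n K hK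
  rw [isOpen_iff_mem_nhds]
  rintro x ⟨r, hr, hx⟩
  obtain ⟨t, ht0, htr, ht⟩ := h56_inner hB hK μ x hr hx
  have hs : 0 < r - t := by linarith
  refine Filter.mem_of_superset ((hop x (r - t) hs).mem_nhds (hself x (r - t) hs)) ?_
  intro y hy
  refine ⟨r, hr, ?_⟩
  have h1 := hpert y x (r - t) t hs ht0 (h56_symm hK hy)
  rw [sub_add_cancel] at h1
  rw [hvol y r hr, ← hvol x r hr]
  exact lt_of_lt_of_le ht (measure_mono h1)

theorem t_WEAK : S_BASIC → S_WEAK := by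
  intro hB n _ K hK c hc hg μ _
  set W : Set (E n) := {x | ∃ r : ℝ, 0 < r ∧ volume (copy K x r) < μ (copy K x r)} with hW
  have hop : IsOpen W := h56_open hB hK μ
  rw [hop.measure_eq_iSup_isCompact]
  refine iSup₂_le fun A hAW => iSup_le fun hA => ?_
  have hδ : ∀ x : E n, ∃ r : ℝ, 0 < r ∧ (x ∈ W → volume (copy K x r) < μ (copy K x r)) := by
    intro x
    by_cases hx : x ∈ W
    · obtain ⟨r, hr, h⟩ := hx
      exact ⟨r, hr, fun _ => h⟩
    · exact ⟨1, one_pos, fun h => absurd h hx⟩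
  choose δ hδ0 hδ1 using hδ
  obtain ⟨S, hSA, hSc, hSd, hS⟩ := hg A hA δ (fun x _ => hδ0 x)
  have hopc : ∀ x t, 0 < t → IsOpen (copy K x t) := (hB n K hK).2.2.2.1
  have h1 : ∑' x : S, volume (copy K (x : E n) (δ x)) ≤ μ univ := by
    calc ∑' x : S, volume (copy K (x : E n) (δ x))
        ≤ ∑' x : S, μ (copy K (x : E n) (δ x)) :=
          ENNReal.tsum_le_tsum fun x => (hδ1 x (hAW (hSA x.2))).le
      _ = μ (⋃ x ∈ S, copy K x (δ x)) :=
          (measure_biUnion hSc hSd fun x _ => (hopc x _ (hδ0 x)).measurableSet).symm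
      _ ≤ μ univ := measure_mono (subset_univ _)
  have h2 := hS.trans h1
  have hc0 : ENNReal.ofReal c ≠ 0 := by
    rw [Ne, ENNReal.ofReal_eq_zero, not_le]
    exact hc
  rw [one_div, ENNReal.ofReal_inv_of_pos hc]
  calc volume A = (ENNReal.ofReal c)⁻¹ * (ENNReal.ofReal c * volume A) := by
        rw [← mul_assoc, ENNReal.inv_mul_cancel hc0 ENNReal.ofReal_ne_top, one_mul]
    _ ≤ (ENNReal.ofReal c)⁻¹ * μ univ := by gcongr

end Pool.Agent.H748R2.DC
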