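import Mathlib

namespace Pool.Agent.H748R2.DC

open Set

variable {n : ℕ}

theorem w748_sup_lt {F B G : Set (EuclideanSpace ℝ (Fin n))} (hF : IsCompact F)
    (hB : IsCompact B) (t : EuclideanSpace ℝ (Fin n)) (hBt : B ⊆ (fun x => t + x) '' interior F)
    (hG : G ⊆ B) (hne : G.Nonempty) (u : EuclideanSpace ℝ (Fin n)) (hu : ‖u‖ = 1) :
    sSup ((fun x => inner ℝ u x) '' G) < inner ℝ u t + sSup ((fun x => inner ℝ u x) '' F) := by
  have hcont : Continuous (fun x : EuclideanSpace ℝ (Fin n) => inner ℝ u x) := by fun_prop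
  obtain ⟨b, hb, hmax⟩ := hB.exists_isMaxOn (hne.mono hG) hcont.continuousOn
  obtain ⟨x, hx, hxb⟩ := hBt hb
  have h1 : sSup ((fun x => inner ℝ u x) '' G) ≤ inner ℝ u b := by
    refine csSup_le (hne.image _) ?_
    rintro _ ⟨g, hg, rfl⟩
    exact hmax (hG hg)
  have h2 : inner ℝ u x < sSup ((fun x => inner ℝ u x) '' F) := by
    obtain ⟨ε, hε, hball⟩ := Metric.isOpen_iff.mp isOpen_interior x hx
    have h3 : x + (ε / 2) • u ∈ interior F := by
      apply hball
      rw [Metric.mem_ball, dist_eq_norm]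
      simp [norm_smul, hu, abs_of_pos hε]
      linarith
    have h4 : inner ℝ u (x + (ε / 2) • u) ≤ sSup ((fun x => inner ℝ u x) '' F) :=
      le_csSup (hF.image hcont).bddAbove ⟨_, interior_subset h3, rfl⟩
    rw [inner_add_right, inner_smul_right, real_inner_self_eq_norm_sq, hu] at h4
    linarith
  have h5 : inner ℝ u b = inner ℝ u t + inner ℝ u x := by
    rw [← inner_add_right]; exact congrArg _ hxb.symm
  linarith

theorem w748_inf_gt {F B G : Set (EuclideanSpace ℝ (Fin n))} (hF : IsCompact F)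
    (hB : IsCompact B) (t : EuclideanSpace ℝ (Fin n)) (hBt : B ⊆ (fun x => t + x) '' interior F)
    (hG : G ⊆ B) (hne : G.Nonempty) (u : EuclideanSpace ℝ (Fin n)) (hu : ‖u‖ = 1) :
    inner ℝ u t + sInf ((fun x => inner ℝ u x) '' F) < sInf ((fun x => inner ℝ u x) '' G) := by
  have hcont : Continuous (fun x : EuclideanSpace ℝ (Fin n) => inner ℝ u x) := by fun_prop
  obtain ⟨b, hb, hmin⟩ := hB.exists_isMinOn (hne.mono hG) hcont.continuousOn
  obtain ⟨x, hx, hxb⟩ := hBt hb
  have h1 : inner ℝ u b ≤ sInf ((fun x => inner ℝ u x) '' G) := by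
    refine le_csInf (hne.image _) ?_
    rintro _ ⟨g, hg, rfl⟩
    exact hmin (hG hg)
  have h2 : sInf ((fun x => inner ℝ u x) '' F) < inner ℝ u x := by
    obtain ⟨ε, hε, hball⟩ := Metric.isOpen_iff.mp isOpen_interior x hx
    have h3 : x - (ε / 2) • u ∈ interior F := by
      apply hball
      rw [Metric.mem_ball, dist_eq_norm]
      simp [norm_smul, hu, abs_of_pos hε]
      linarith
    have h4 : sInf ((fun x => inner ℝ u x) '' F) ≤ inner ℝ u (x - (ε / 2) • u) :=
      csInf_le (hF.image hcont).bddBelow ⟨_, interior_subset h3, rfl⟩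
    rw [inner_sub_right, inner_smul_right, real_inner_self_eq_norm_sq, hu] at h4
    linarith
  have h5 : inner ℝ u b = inner ℝ u t + inner ℝ u x := by
    rw [← inner_add_right]; exact congrArg _ hxb.symm
  linarith

theorem w748_width_pos {F : Set (EuclideanSpace ℝ (Fin n))} (hF : IsCompact F)
    (hi : (interior F).Nonempty) (u : EuclideanSpace ℝ (Fin n)) (hu : ‖u‖ = 1) :
    0 < sSup ((fun x => inner ℝ u x) '' F) - sInf ((fun x => inner ℝ u x) '' F) := by
  obtain ⟨x, hx⟩ := hi
  have hs : ({x} : Set (EuclideanSpace ℝ (Fin n))) ⊆ (fun y => (0 : EuclideanSpace ℝ (Fin n)) + y) ''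
      interior F := by
    rintro _ rfl; exact ⟨_, hx, by simp⟩
  have h1 := w748_sup_lt hF isCompact_singleton 0 hs subset_rfl (singleton_nonempty x) u hu
  have h2 := w748_inf_gt hF isCompact_singleton 0 hs subset_rfl (singleton_nonempty x) u hu
  simp only [image_singleton, csSup_singleton, csInf_singleton, inner_zero_right] at h1 h2
  linarith

/-- A covering by translates of the interior gives a partition into parts of smaller width. -/
theorem w748_partition {F : Set (EuclideanSpace ℝ (Fin n))} (hF : IsCompact F)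
    (hi : (interior F).Nonempty) (T : Finset (EuclideanSpace ℝ (Fin n)))
    (hT : F ⊆ ⋃ t ∈ T, (fun x => t + x) '' interior F) :
    ∃ G : Fin T.card → Set (EuclideanSpace ℝ (Fin n)),
      (⋃ i, G i) = F ∧ (∀ i j, i ≠ j → Disjoint (G i) (G j)) ∧
      ∀ i, ∀ u : EuclideanSpace ℝ (Fin n), ‖u‖ = 1 →
        sSup ((fun x => inner ℝ u x) '' G i) - sInf ((fun x => inner ℝ u x) '' G i)
          < sSup ((fun x => inner ℝ u x) '' F) - sInf ((fun x => inner ℝ u x) '' F) := by
  obtain ⟨C, hC, hCU, hCF⟩ := hF.finite_compact_cover T (fun t => (fun x => t + x) '' interior F)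
    (fun t _ => (Homeomorph.addLeft t).isOpenMap _ isOpen_interior) hT
  let e := T.equivFin
  let A : Fin T.card → Set (EuclideanSpace ℝ (Fin n)) := fun i => C (e.symm i)
  have hA : (⋃ i, A i) = F := by
    rw [hCF]
    ext x
    simp only [mem_iUnion, A]
    constructor
    · rintro ⟨i, hi⟩
      exact ⟨_, (e.symm i).2, hi⟩
    · rintro ⟨t, ht, hx⟩
      exact ⟨e ⟨t, ht⟩, by simpa using hx⟩
  refine ⟨fun i => A i \ ⋃ j, ⋃ (_ : j < i), A j, ?_, ?_, ?_⟩
  · rw [← hA]
    apply subset_antisymm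
    · exact iUnion_mono fun i => sdiff_subset
    · intro x hx
      have hx' : ∃ i, x ∈ A i := mem_iUnion.mp hx
      classical
      let i0 := (Finset.univ.filter fun i => x ∈ A i).min' (by
        obtain ⟨i, hi⟩ := hx'
        exact ⟨i, by simp [hi]⟩)
      have h0 : x ∈ A i0 := by
        have := Finset.min'_mem (Finset.univ.filter fun i => x ∈ A i) (by
          obtain ⟨i, hi⟩ := hx'
          exact ⟨i, by simp [hi]⟩)
        simpa using (Finset.mem_filter.mp this).2
      refine mem_iUnion.mpr ⟨i0, h0, ?_⟩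
      simp only [mem_iUnion, not_exists]
      intro j hj hxj
      have := Finset.min'_le (Finset.univ.filter fun i => x ∈ A i) j (by simp [hxj])
      exact absurd hj (not_lt.mpr this)
  · intro i j hij
    rcases lt_or_gt_of_ne hij with h | h
    · rw [Set.disjoint_left]
      rintro x ⟨hx, _⟩ ⟨_, hx2⟩
      exact hx2 (mem_iUnion₂.mpr ⟨i, h, hx⟩)
    · rw [Set.disjoint_left]
      rintro x ⟨_, hx2⟩ ⟨hx, _⟩
      exact hx2 (mem_iUnion₂.mpr ⟨j, h, hx⟩)
  · intro i u hu
    rcases (A i \ ⋃ j, ⋃ (_ : j < i), A j).eq_empty_or_nonempty with h | h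
    · simp only [h, image_empty, Real.sSup_empty, Real.sInf_empty, sub_zero]
      exact w748_width_pos hF hi u hu
    · have h1 := w748_sup_lt hF (hC (e.symm i)) (e.symm i) (hCU (e.symm i)) sdiff_subset h u hu
      have h2 := w748_inf_gt hF (hC (e.symm i)) (e.symm i) (hCU (e.symm i)) sdiff_subset h u hu
      linarith

end Pool.Agent.H748R2.DC
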